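import Mathlib
import Pool.Agent.W738.SAL.O

/-!
# The product criterion for a finite set of automorphisms
-/

set_option autoImplicit false

open Polynomial NumberField

namespace Pool.Agent.Q98.SG

open Pool.Agent.W738.SAL

section nz

variable {β : ℝ} (hβ : 1 < β) (hint : IsIntegral ℤ β) (hrec : aeval β⁻¹ (minpoly ℤ β) = 0)
  (hone : ∀ z : ℂ, aeval z (minpoly ℤ β) = 0 → z ≠ (β : ℂ) → ‖z‖ ≤ 1)

include hβ hint hrec hone in
lemma z_ne_zero' (σ : TF β ≃ₐ[ℚ] TF β) {a : ℕ} (ha : 1 ≤ a) (hσ : σ ≠ 1) :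
    aeval (tt β) (dickson 1 (1 : ℤ) a) - aeval (σ (tt β)) (dickson 1 (1 : ℤ) a) ≠ 0 := by
  intro h0
  have hβ0 : β ≠ 0 := by linarith
  have h3 := congrArg (φ₀ β) h0
  rw [map_zero, map_sub, φ₀_dickson hβ0, φ_comp, sub_eq_zero] at h3
  by_cases h4 : (φ₀ β).comp σ.toAlgHom = φ₀ β
  · apply hσ
    ext x
    have h8 := AlgHom.congr_fun h4 x
    have h9 : ((σ x : TF β) : ℝ) = (x : ℝ) := by
      have : (((σ x : TF β) : ℝ) : ℂ) = ((x : ℝ) : ℂ) := h8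
      exact_mod_cast this
    exact h9
  · have h5 := norm_φ_other hβ hint hrec hone h4 a
    rw [← h3, Complex.norm_real, Real.norm_eq_abs] at h5
    have h6 := U_two_lt hβ ha
    have h7 := le_abs_self (U β a)
    linarith

end nz

/-- the trace `β + β⁻¹` as an element of the ring of integers -/
noncomputable def TT {β : ℝ} (hP : IsPerron β) (hrec : IsReciprocal β) : 𝓞 (TF β) :=
  ⟨tt β, tt_integral hP hrec⟩

/-- the product criterion -/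
theorem prodCrit {β : ℝ} (hP : IsPerron β) (hrec : IsReciprocal β)
    (hinf : ¬ (ParryPowers β).Finite) {p : ℕ} (hp : p.Prime) {i j : ℕ}
    (S : Finset (TF β ≃ₐ[ℚ] TF β)) (hij : j < i ∨ (j = i ∧ ∀ σ ∈ S, σ ≠ 1))
    (hdiv : (∏ σ ∈ S, ((TT hP hrec) ^ (p ^ (i - j)) - σ • (TT hP hrec))) ^ (p ^ j) ∈
      Ideal.span {(p : 𝓞 (TF β))}) :
    (p : ℝ) ^ (Module.finrank ℚ (TF β)) ≤
      ((U β (p ^ i) + 2) * (U β (p ^ j) + 2) / 16 * 4 ^ (Module.finrank ℚ (TF β))) ^ S.card := by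
  classical
  have : Fact p.Prime := ⟨hp⟩
  have hfd := tf_finite hP hrec
  have : NumberField (TF β) := ⟨⟩
  have hone : ∀ z : ℂ, aeval z (minpoly ℤ β) = 0 → z ≠ (β : ℂ) → ‖z‖ ≤ 1 :=
    fun z hz hne => one_of_inf hP hinf hz hne
  have hji : j ≤ i := by rcases hij with h | h <;> omega
  set n := Module.finrank ℚ (TF β) with hn
  set T : 𝓞 (TF β) := TT hP hrec with hT
  set zz : (TF β ≃ₐ[ℚ] TF β) → TF β := fun σ =>
    aeval (tt β) (dickson 1 (1 : ℤ) (p ^ i)) - aeval (σ (tt β)) (dickson 1 (1 : ℤ) (p ^ j)) with hzz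
  set z' : (TF β ≃ₐ[ℚ] TF β) → 𝓞 (TF β) := fun σ =>
    aeval T (dickson 1 (1 : ℤ) (p ^ i)) - aeval (σ • T) (dickson 1 (1 : ℤ) (p ^ j)) with hz'
  have hcoe : ∀ σ, algebraMap (𝓞 (TF β)) (TF β) (z' σ) = zz σ := by
    intro σ
    rw [hz', hzz]
    simp only [map_sub]
    rw [← aeval_algebraMap_apply, ← aeval_algebraMap_apply]
    rfl
  have hdiv' : (∏ σ ∈ S, z' σ) ∈ Ideal.span {(p : 𝓞 (TF β))} := by
    rw [← Ideal.Quotient.eq_zero_iff_mem] at hdiv ⊢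
    rw [← hdiv, map_pow, map_prod, map_prod, ← Finset.prod_pow]
    refine Finset.prod_congr rfl fun σ _ => ?_
    rw [hz']
    simp only
    rw [← mk_sub_pow, map_sub, mk_dickson, mk_dickson, map_pow, ← pow_mul, ← pow_add,
      Nat.sub_add_cancel hji]
  obtain ⟨y, hy⟩ := Ideal.mem_span_singleton.1 hdiv'
  have hy2 : ∏ σ ∈ S, zz σ = p * algebraMap (𝓞 (TF β)) (TF β) y := by
    have h1 := congrArg (algebraMap (𝓞 (TF β)) (TF β)) hy
    rw [map_prod, map_mul, map_natCast] at h1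
    rw [← h1]
    exact Finset.prod_congr rfl fun σ _ => (hcoe σ).symm
  have hpi : 1 ≤ p ^ i := Nat.one_le_pow _ _ hp.pos
  have hpj : 1 ≤ p ^ j := Nat.one_le_pow _ _ hp.pos
  have hne : ∏ σ ∈ S, zz σ ≠ 0 := by
    rw [Finset.prod_ne_zero_iff]
    intro σ hσ
    rcases hij with h | ⟨rfl, h⟩
    · exact z_ne_zero hP.1 hP.2.1 hrec hone σ (Nat.pow_lt_pow_right hp.one_lt h)
    · exact z_ne_zero' hP.1 hP.2.1 hrec hone σ hpj (h σ hσ)
  have hlow := pow_le_prod (p := p) y.2 hy2 hne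
  refine hlow.trans ?_
  have h1 : ∏ φ : TF β →ₐ[ℚ] ℂ, ‖φ (∏ σ ∈ S, zz σ)‖ =
      ∏ σ ∈ S, ∏ φ : TF β →ₐ[ℚ] ℂ, ‖φ (zz σ)‖ := by
    rw [Finset.prod_comm]
    refine Finset.prod_congr rfl fun φ _ => ?_
    rw [map_prod, norm_prod]
  rw [h1]
  calc ∏ σ ∈ S, ∏ φ : TF β →ₐ[ℚ] ℂ, ‖φ (zz σ)‖ ≤
      ∏ _σ ∈ S, ((U β (p ^ i) + 2) * (U β (p ^ j) + 2) / 16 * 4 ^ n) := by
        refine Finset.prod_le_prod (fun σ _ => Finset.prod_nonneg fun φ _ => norm_nonneg _) ?_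
        intro σ _
        exact prod_bound hP.1 hP.2.1 hrec hone σ hpi hpj
    _ = _ := by rw [Finset.prod_const]

end Pool.Agent.Q98.SG
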