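import Mathlib

/-!
# The tame quotient of the inertia group
-/

set_option autoImplicit false

namespace Pool.Agent.Q98.SG

section

variable {S : Type*} [CommRing S] [IsDedekindDomain S] {G : Type*} [Group G]
  [MulSemiringAction G S] {P : Ideal S} [hPp : P.IsPrime]

omit [IsDedekindDomain S] hPp in
lemma inert_smul {σ : G} (hσ : σ ∈ P.inertia G) (x : S) : σ • x - x ∈ P :=
  (AddSubgroup.mem_inertia.1 hσ) x

omit [IsDedekindDomain S] hPp in
lemma smul_mem {σ : G} (hσ : σ ∈ P.inertia G) {x : S} (hx : x ∈ P) : σ • x ∈ P := by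
  have h1 := P.add_mem (inert_smul hσ x) hx
  rwa [sub_add_cancel] at h1

omit [IsDedekindDomain S] hPp in
lemma smul_mem_pow {σ : G} (hσ : σ ∈ P.inertia G) {i : ℕ} {x : S} (hx : x ∈ P ^ i) :
    σ • x ∈ P ^ i := by
  have h1 : P ≤ P.comap (MulSemiringAction.toRingHom G S σ) := fun y hy => smul_mem hσ hy
  have h2 : P ^ i ≤ (P ^ i).comap (MulSemiringAction.toRingHom G S σ) :=
    (Ideal.pow_right_mono h1 i).trans (Ideal.le_comap_pow _ _)
  exact h2 hx

omit [IsDedekindDomain S] hPp in
/-- an inertia element that moves a uniformizer by an element of `P ^ 2` moves all elements of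
`P ^ (i + 1)` by elements of `P ^ (i + 2)` -/
lemma sub_mem_succ {σ : G} (hσ : σ ∈ P.inertia G) {π : S} (hπ : π ∈ P)
    (hgen : ∀ y ∈ P, ∃ a : S, ∃ e ∈ P ^ 2, π * a + e = y) (h : σ • π - π ∈ P ^ 2) (i : ℕ) :
    ∀ y ∈ P ^ (i + 1), σ • y - y ∈ P ^ (i + 2) := by
  have h0 : ∀ y ∈ P, σ • y - y ∈ P ^ 2 := by
    intro y hy
    obtain ⟨a, e, he, rfl⟩ := hgen y hy
    have h1 : σ • (π * a + e) - (π * a + e) =
        (σ • π - π) * σ • a + π * (σ • a - a) + (σ • e - e) := by
      rw [smul_add, smul_mul']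
      ring
    rw [h1]
    refine Ideal.add_mem _ (Ideal.add_mem _ (Ideal.mul_mem_right _ _ h) ?_)
      (Ideal.sub_mem _ (smul_mem_pow hσ he) he)
    rw [pow_two]
    exact Ideal.mul_mem_mul hπ (inert_smul hσ a)
  induction i with
  | zero =>
    intro y hy
    rw [zero_add, pow_one] at hy
    exact h0 y hy
  | succ i ih =>
    intro y hy
    rw [pow_succ' P (i + 1)] at hy
    refine Submodule.mul_induction_on hy ?_ ?_
    · intro a ha b hb
      have h1 : σ • (a * b) - a * b = (σ • a - a) * σ • b + a * (σ • b - b) := by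
        rw [smul_mul']
        ring
      rw [h1]
      refine Ideal.add_mem _ ?_ ?_
      · have h2 := Ideal.mul_mem_mul (h0 a ha) (smul_mem_pow hσ hb)
        rw [← pow_add] at h2
        have h3 : 2 + (i + 1) = i + 1 + 2 := by ring
        rwa [h3] at h2
      · have h2 := Ideal.mul_mem_mul ha (ih b hb)
        rw [← pow_succ'] at h2
        exact h2
    · intro x y hx hy
      have h1 : σ • (x + y) - (x + y) = (σ • x - x) + (σ • y - y) := by
        rw [smul_add]
        ring
      rw [h1]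
      exact Ideal.add_mem _ hx hy

/-- an inertia element of order prime to `p` that fixes a uniformizer modulo `P ^ 2` is trivial -/
theorem tame_trivial [FaithfulSMul G S] {σ : G} (hσ : σ ∈ P.inertia G) {π : S} (hπ : π ∈ P)
    (hgen : ∀ y ∈ P, ∃ a : S, ∃ e ∈ P ^ 2, π * a + e = y) (h : σ • π - π ∈ P ^ 2) {m : ℕ}
    (hm : σ ^ m = 1) (hmP : (m : S) ∉ P) : σ = 1 := by
  have key : ∀ (i : ℕ) (x : S), σ • x - x ∈ P ^ (i + 1) := by
    intro i
    induction i with
    | zero =>
      intro x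
      rw [zero_add, pow_one]
      exact inert_smul hσ x
    | succ i ih =>
      intro x
      have h1 : ∀ y ∈ P ^ (i + 1), σ • y - y ∈ P ^ (i + 2) := sub_mem_succ hσ hπ hgen h i
      have h2 : ∀ j : ℕ, σ ^ j • (σ • x - x) - (σ • x - x) ∈ P ^ (i + 2) := by
        intro j
        induction j with
        | zero => simp
        | succ j ihj =>
          have h3 : σ ^ (j + 1) • (σ • x - x) - (σ • x - x) =
              σ • (σ ^ j • (σ • x - x) - (σ • x - x)) + (σ • (σ • x - x) - (σ • x - x)) := by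
            rw [pow_succ', mul_smul, smul_sub σ (σ ^ j • (σ • x - x))]
            ring
          rw [h3]
          exact Ideal.add_mem _ (smul_mem_pow hσ ihj) (h1 _ (ih x))
      have h4 : ∀ j : ℕ, (σ ^ j • x - x) - (j : S) * (σ • x - x) ∈ P ^ (i + 2) := by
        intro j
        induction j with
        | zero => simp
        | succ j ihj =>
          have h5 : (σ ^ (j + 1) • x - x) - ((j + 1 : ℕ) : S) * (σ • x - x) =
              ((σ ^ j • x - x) - (j : S) * (σ • x - x)) +
                (σ ^ j • (σ • x - x) - (σ • x - x)) := by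
            rw [pow_succ, mul_smul, smul_sub]
            push_cast
            ring
          rw [h5]
          exact Ideal.add_mem _ ihj (h2 j)
      have h6 := h4 m
      rw [hm, one_smul, sub_self, zero_sub] at h6
      have h7 : (m : S) * (σ • x - x) ∈ P ^ (i + 2) := by
        rw [← neg_neg ((m : S) * (σ • x - x))]
        exact (P ^ (i + 2)).neg_mem h6
      rw [mul_comm] at h7
      rcases Ideal.IsPrime.mem_pow_mul P h7 with h8 | h8
      · exact h8
      · exact absurd h8 hmP
  have hne : P ≠ ⊤ := hPp.ne_top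
  have hbot := Ideal.iInf_pow_eq_bot_of_isDomain P hne
  apply FaithfulSMul.eq_of_smul_eq_smul (α := S)
  intro x
  rw [one_smul]
  have h1 : σ • x - x ∈ (⨅ i : ℕ, P ^ i) := by
    rw [Ideal.mem_iInf]
    intro i
    rcases i with _ | i
    · simp
    · exact key i x
  rw [hbot, Ideal.mem_bot] at h1
  exact sub_eq_zero.1 h1

/-- the tame character and its kernel -/
theorem tame_char (hP0 : P ≠ ⊥) :
    ∃ π : S, π ∈ P ∧ (∀ y ∈ P, ∃ a : S, ∃ e ∈ P ^ 2, π * a + e = y) ∧
      ∃ θ : P.inertia G →* (S ⧸ P), ∀ σ : P.inertia G, θ σ = 1 → (σ : G) • π - π ∈ P ^ 2 := by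
  classical
  have hlt := Ideal.pow_succ_lt_pow hP0 1
  obtain ⟨π, hπ1, hπ2⟩ := Set.exists_of_ssubset hlt
  have hπ1' : π ∈ P ^ 1 := hπ1
  have hπ2' : π ∉ P ^ (1 + 1) := hπ2
  have hπ : π ∈ P := by rwa [pow_one] at hπ1'
  have hgen : ∀ y ∈ P, ∃ a : S, ∃ e ∈ P ^ 2, π * a + e = y := by
    intro y hy
    exact Ideal.exists_mul_add_mem_pow_succ hP0 π y hπ1' hπ2' (by rwa [pow_one])
  have hu : ∀ σ : P.inertia G, ∃ a : S, (σ : G) • π - π * a ∈ P ^ 2 := by
    intro σ
    obtain ⟨a, e, he, h⟩ := hgen _ (smul_mem σ.2 hπ)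
    refine ⟨a, ?_⟩
    rw [← h, add_sub_cancel_left]
    exact he
  choose u hu using hu
  have huniq : ∀ a b : S, π * a - π * b ∈ P ^ 2 → a - b ∈ P := by
    intro a b h
    rw [← mul_sub] at h
    exact Ideal.mem_prime_of_mul_mem_pow hP0 hπ2' h
  refine ⟨π, hπ, hgen, ⟨⟨fun σ => Ideal.Quotient.mk P (u σ), ?_⟩, ?_⟩, ?_⟩
  · rw [← map_one (Ideal.Quotient.mk P), Ideal.Quotient.eq]
    apply huniq
    have h1 := hu 1
    rw [OneMemClass.coe_one, one_smul] at h1
    have h2 : π * u 1 - π * 1 = -(π - π * u 1) := by ring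
    rw [h2]
    exact Ideal.neg_mem_iff _ |>.2 h1
  · intro σ τ
    simp only
    rw [← map_mul, Ideal.Quotient.eq]
    apply huniq
    have h1 := hu (σ * τ)
    have h2 := hu τ
    have h3 := hu σ
    have h4 : ((σ * τ : P.inertia G) : G) • π = (σ : G) • ((τ : G) • π) := by
      rw [Subgroup.coe_mul, mul_smul]
    have h5 := smul_mem_pow σ.2 h2
    rw [smul_sub, smul_mul', ← h4] at h5
    have h6 : π * u (σ * τ) - π * (u σ * u τ) =
        -(((σ * τ : P.inertia G) : G) • π - π * u (σ * τ)) +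
        (((σ * τ : P.inertia G) : G) • π - (σ : G) • π * (σ : G) • u τ) +
        ((σ : G) • π - π * u σ) * (σ : G) • u τ + π * u σ * ((σ : G) • u τ - u τ) := by ring
    rw [h6]
    refine Ideal.add_mem _ (Ideal.add_mem _ (Ideal.add_mem _ ((Ideal.neg_mem_iff _).2 h1) h5)
      (Ideal.mul_mem_right _ _ h3)) ?_
    have h7 : π * u σ * ((σ : G) • u τ - u τ) = u σ * (π * ((σ : G) • u τ - u τ)) := by ring
    rw [h7]
    apply Ideal.mul_mem_left
    rw [pow_two]
    exact Ideal.mul_mem_mul hπ (inert_smul σ.2 _)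
  · intro σ hσ
    have h1 : Ideal.Quotient.mk P (u σ) = 1 := hσ
    rw [← map_one (Ideal.Quotient.mk P), Ideal.Quotient.eq] at h1
    have h2 := hu σ
    have h3 : (σ : G) • π - π = ((σ : G) • π - π * u σ) + π * (u σ - 1) := by ring
    rw [h3]
    refine Ideal.add_mem _ h2 ?_
    rw [pow_two]
    exact Ideal.mul_mem_mul hπ h1

/-- if all `d`-th powers are central, `0 < d`, and no multiple of `p` divides `d`, the inertia
group is covered by `d` cosets of the centre -/
theorem inertia_card_le [Finite G] [FaithfulSMul G S] (hP0 : P ≠ ⊥) [Finite (S ⧸ P)] {p : ℕ}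
    (hp : p.Prime) (hpP : (p : S) ∈ P) {d : ℕ} (hd : 0 < d) (hdp : d < p)
    (hcen : ∀ σ τ : G, σ ^ d * τ = τ * σ ^ d) :
    Nat.card (P.inertia G) ≤ d * Nat.card (Subgroup.center G) := by
  classical
  obtain ⟨π, hπ, hgen, θ, hθ⟩ := tame_char (G := G) (P := P) hP0
  have hmax : P.IsMaximal := hPp.isMaximal hP0
  let _ : Field (S ⧸ P) := Ideal.Quotient.field P
  -- kernel elements are central
  have hker : ∀ w : P.inertia G, θ w = 1 → (w : G) ∈ Subgroup.center G := by
    intro w hw
    have hw0 : 0 < orderOf (w : G) := orderOf_pos _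
    obtain ⟨a, m, hm, hab⟩ := Nat.exists_eq_pow_mul_and_not_dvd hw0.ne' p hp.ne_one
    have h1 : (w : G) ^ (p ^ a) = 1 := by
      have h3 : θ (w ^ (p ^ a)) = 1 := by rw [map_pow, hw, one_pow]
      have h4 := hθ _ h3
      have h5 : (((w ^ (p ^ a) : P.inertia G) : G)) = (w : G) ^ (p ^ a) := by
        rw [Subgroup.coe_pow]
      rw [h5] at h4
      have h6 : (w : G) ^ (p ^ a) ∈ P.inertia G := Subgroup.pow_mem _ w.2 _
      refine tame_trivial h6 hπ hgen h4 (m := m) ?_ ?_
      · rw [← pow_mul, ← hab]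
        exact pow_orderOf_eq_one _
      · intro h7
        have h8 : IsCoprime (p : ℤ) (m : ℤ) :=
          Nat.isCoprime_iff_coprime.2 ((Nat.Prime.coprime_iff_not_dvd hp).2 hm)
        obtain ⟨x, y, hxy⟩ := h8
        apply hPp.ne_top
        rw [Ideal.eq_top_iff_one]
        have h9 : (1 : S) = (x : S) * (p : S) + (y : S) * (m : S) := by
          have := congrArg (Int.cast : ℤ → S) hxy
          push_cast at this
          exact this.symm
        rw [h9]
        exact P.add_mem (P.mul_mem_left _ hpP) (P.mul_mem_left _ h7)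
    have h2 : (w : G) ^ d ∈ Subgroup.center G := by
      rw [Subgroup.mem_center_iff]
      intro g
      exact (hcen _ g).symm
    have h3 : Nat.Coprime (p ^ a) d := by
      apply Nat.Coprime.pow_left
      rw [Nat.Prime.coprime_iff_not_dvd hp]
      intro h4
      exact absurd (Nat.le_of_dvd hd h4) (by omega)
    have h4 : IsCoprime ((p ^ a : ℕ) : ℤ) (d : ℤ) := Nat.isCoprime_iff_coprime.2 h3
    obtain ⟨x, y, hxy⟩ := h4
    have h5 : (w : G) = ((w : G) ^ (p ^ a)) ^ x * ((w : G) ^ d) ^ y := by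
      rw [← zpow_natCast, ← zpow_natCast, ← zpow_mul, ← zpow_mul, ← zpow_add]
      have : ((p ^ a : ℕ) : ℤ) * x + (d : ℤ) * y = 1 := by rw [← hxy]; ring
      rw [this, zpow_one]
    rw [h5, h1, one_zpow, one_mul]
    exact Subgroup.zpow_mem _ h2 _
  -- the image is cyclic
  let θ' : P.inertia G →* (S ⧸ P)ˣ := θ.toHomUnits
  have hcyc : IsCyclic θ'.range := inferInstance
  obtain ⟨⟨_, τ, rfl⟩, hgenr⟩ := hcyc.exists_generator
  -- covering
  have hcov : ∀ σ : P.inertia G, ∃ j : Fin d, ∃ z : Subgroup.center G,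
      (σ : G) = (τ : G) ^ (j : ℕ) * (z : G) := by
    intro σ
    obtain ⟨k, hk⟩ := hgenr ⟨θ' σ, σ, rfl⟩
    have hk' : θ' τ ^ k = θ' σ := congrArg Subtype.val hk
    set w : P.inertia G := τ ^ (-k) * σ with hw
    have h1 : θ' w = 1 := by
      rw [hw, map_mul, map_zpow, zpow_neg, hk', inv_mul_cancel]
    have h2 : θ w = 1 := by
      have := congrArg Units.val h1
      simpa [θ'] using this
    have h3 := hker w h2
    have h4 : (σ : G) = (τ : G) ^ k * (w : G) := by
      rw [hw]
      push_cast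
      rw [zpow_neg, mul_inv_cancel_left]
    have hd0 : (d : ℤ) ≠ 0 := by exact_mod_cast hd.ne'
    have h5 : 0 ≤ k % d := Int.emod_nonneg _ hd0
    have h6 : k % d < d := Int.emod_lt_of_pos _ (by exact_mod_cast hd)
    refine ⟨⟨(k % d).toNat, by omega⟩, ⟨((τ : G) ^ d) ^ (k / d) * (w : G), ?_⟩, ?_⟩
    · refine Subgroup.mul_mem _ (Subgroup.zpow_mem _ ?_ _) h3
      rw [Subgroup.mem_center_iff]
      intro g
      exact (hcen _ g).symm
    · simp only
      rw [h4, ← mul_assoc]
      congr 1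
      rw [← zpow_natCast, ← zpow_natCast, ← zpow_mul, ← zpow_add, Int.toNat_of_nonneg h5,
        Int.emod_add_mul_ediv]
  choose J Z hJZ using hcov
  have hinj : Function.Injective (fun σ : P.inertia G => (J σ, Z σ)) := by
    intro σ τ' h
    have h1 : J σ = J τ' := congrArg Prod.fst h
    have h2 : Z σ = Z τ' := congrArg Prod.snd h
    apply Subtype.ext
    rw [hJZ σ, hJZ τ', h1, h2]
  have h1 := Nat.card_le_card_of_injective _ hinj
  rwa [Nat.card_prod, Nat.card_fin] at h1

end

end Pool.Agent.Q98.SG
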