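import Mathlib
import Pool.Agent.Q98.SG.T

/-!
# Galois number fields: ramification, inertia, Frobenius
-/

set_option autoImplicit false

open NumberField
open scoped Pointwise

namespace Pool.Agent.Q98.SG

section

variable {L : Type} [Field L] [NumberField L] {p : ℕ}

lemma maxZ (hp : p.Prime) : (Ideal.span {(p : ℤ)}).IsMaximal := by
  have hpr : (Ideal.span {(p : ℤ)}).IsPrime := by
    rw [Ideal.span_singleton_prime (by exact_mod_cast hp.ne_zero)]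
    exact Nat.prime_iff_prime_int.1 hp
  apply hpr.isMaximal
  rw [Ne, Ideal.span_singleton_eq_bot]
  exact_mod_cast hp.ne_zero

lemma lies (hp : p.Prime) (P : Ideal (𝓞 L)) (hP : P.IsPrime) (hpP : (p : 𝓞 L) ∈ P) :
    P.LiesOver (Ideal.span {(p : ℤ)}) := by
  refine ⟨(maxZ hp).eq_of_le (Ideal.IsPrime.under ℤ P).ne_top ?_⟩
  rw [Ideal.span_singleton_le_iff_mem, Ideal.under_def, Ideal.mem_comap]
  simpa using hpP

lemma map_span (p : ℕ) : Ideal.map (algebraMap ℤ (𝓞 L)) (Ideal.span {(p : ℤ)}) =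
    Ideal.span {(p : 𝓞 L)} := by
  rw [Ideal.map_span, Set.image_singleton, algebraMap_int_eq, eq_intCast, Int.cast_natCast]

open UniqueFactorizationMonoid in
/-- `rad(p)^m ⊆ (p)` if the ramification indices are at most `m` -/
lemma ramLe_of (hp : p.Prime) {m : ℕ}
    (h : ∀ P : Ideal (𝓞 L), P.IsPrime → (p : 𝓞 L) ∈ P → P.ramificationIdx ℤ ≤ m) :
    (Ideal.span {(p : 𝓞 L)}).radical ^ m ≤ Ideal.span {(p : 𝓞 L)} := by
  classical
  have hp0 : (p : 𝓞 L) ≠ 0 := by exact_mod_cast hp.ne_zero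
  have hI0 : Ideal.span {(p : 𝓞 L)} ≠ ⊥ := by
    rw [Ne, Ideal.span_singleton_eq_bot]; exact hp0
  have hR0 : (Ideal.span {(p : 𝓞 L)}).radical ≠ ⊥ := by
    intro h0
    exact hI0 (le_bot_iff.1 (h0 ▸ Ideal.le_radical))
  rw [← Ideal.dvd_iff_le, dvd_iff_normalizedFactors_le_normalizedFactors hI0 (pow_ne_zero _ hR0),
    normalizedFactors_pow, Multiset.le_iff_count]
  intro P
  rw [Multiset.count_nsmul]
  by_cases hP : P ∈ normalizedFactors (Ideal.span {(p : 𝓞 L)})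
  · have hprime := Ideal.isPrime_of_prime (prime_of_normalized_factor P hP)
    have hle : Ideal.span {(p : 𝓞 L)} ≤ P := Ideal.dvd_iff_le.1 (dvd_of_mem_normalizedFactors hP)
    have hpP : (p : 𝓞 L) ∈ P := hle (Ideal.subset_span rfl)
    have hlo := lies hp P hprime hpP
    have h1 := h P hprime hpP
    rw [Ideal.IsDedekindDomain.ramificationIdx_eq_normalizedFactors_count (Ideal.span {(p : ℤ)}) P
      (by rw [map_span]; exact hI0), map_span] at h1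
    have h2 : (Ideal.span {(p : 𝓞 L)}).radical ≤ P := hprime.radical_le_iff.2 hle
    have h3 : 1 ≤ Multiset.count P (normalizedFactors (Ideal.span {(p : 𝓞 L)}).radical) := by
      rw [Multiset.one_le_count_iff_mem]
      have h4 : P ∣ (Ideal.span {(p : 𝓞 L)}).radical := Ideal.dvd_iff_le.2 h2
      rw [Ideal.mem_normalizedFactors_iff hR0]
      exact ⟨hprime, h2⟩
    nlinarith
  · rw [Multiset.count_eq_zero_of_notMem hP]
    exact Nat.zero_le _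

variable [IsGalois ℚ L]

lemma finQuot (hp : p.Prime) (P : Ideal (𝓞 L)) (hpP : (p : 𝓞 L) ∈ P) :
    P ≠ ⊥ ∧ Finite (𝓞 L ⧸ P) := by
  have h0 : P ≠ ⊥ := by
    rintro rfl
    have : (p : 𝓞 L) = 0 := by simpa using hpP
    exact hp.ne_zero (by exact_mod_cast this)
  exact ⟨h0, Ideal.finiteQuotientOfFreeOfNeBot P h0⟩

/-- all ramification indices are equal to the order of the inertia group -/
lemma ram_eq (hp : p.Prime) (P Q : Ideal (𝓞 L)) (hP : P.IsPrime) (hpP : (p : 𝓞 L) ∈ P)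
    (hQ : Q.IsPrime) (hpQ : (p : 𝓞 L) ∈ Q) :
    Q.ramificationIdx ℤ = Nat.card (P.inertia (L ≃ₐ[ℚ] L)) := by
  have hlP := lies hp P hP hpP
  have hlQ := lies hp Q hQ hpQ
  have hm := maxZ hp
  rw [Ideal.card_inertia_eq_ramificationIdxIn (G := L ≃ₐ[ℚ] L) (Ideal.span {(p : ℤ)}) P,
    Ideal.ramificationIdxIn_eq_ramificationIdx (Ideal.span {(p : ℤ)}) Q (L ≃ₐ[ℚ] L)]

/-- transitivity on the primes above `p` -/
lemma exists_smul (hp : p.Prime) (P Q : Ideal (𝓞 L)) (hP : P.IsPrime) (hpP : (p : 𝓞 L) ∈ P)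
    (hQ : Q.IsPrime) (hpQ : (p : 𝓞 L) ∈ Q) : ∃ g : L ≃ₐ[ℚ] L, g • P = Q := by
  have hlP := lies hp P hP hpP
  have hlQ := lies hp Q hQ hpQ
  exact Ideal.exists_smul_eq_of_isGaloisGroup (Ideal.span {(p : ℤ)}) P Q (L ≃ₐ[ℚ] L)

/-- Frobenius elements at all primes above `p` -/
lemma frob_all (hp : p.Prime) :
    ∃ s₀ : L ≃ₐ[ℚ] L, ∀ Q : Ideal (𝓞 L), Q.IsPrime → (p : 𝓞 L) ∈ Q →
      ∃ s : L ≃ₐ[ℚ] L, IsConj s s₀ ∧ ∀ x : 𝓞 L, x ^ p - s • x ∈ Q := by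
  classical
  have hm := maxZ hp
  obtain ⟨Q₀⟩ : Nonempty (Ideal.primesOver (Ideal.span {(p : ℤ)}) (𝓞 L)) := inferInstance
  have hfin : ∀ Q : Ideal.primesOver (Ideal.span {(p : ℤ)}) (𝓞 L), Finite (𝓞 L ⧸ Q.1) := by
    intro Q
    have h1 : (p : 𝓞 L) ∈ Q.1 := by
      have h2 := Q.2.2.over
      have h3 : (p : ℤ) ∈ Q.1.under ℤ := by
        rw [← h2]; exact Ideal.subset_span rfl
      simpa [Ideal.under_def, Ideal.mem_comap] using h3
    exact (finQuot hp Q.1 h1).2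
  obtain ⟨s, hs1, hs2⟩ := IsArithFrobAt.exists_primesOver_isConj (R := ℤ) (𝓞 L) (L ≃ₐ[ℚ] L)
    (Ideal.span {(p : ℤ)}) ⟨Q₀, hfin Q₀⟩
  refine ⟨s Q₀, fun Q hQ hpQ => ?_⟩
  have hlQ := lies hp Q hQ hpQ
  refine ⟨s ⟨Q, hQ, hlQ⟩, hs2 _ _, fun x => ?_⟩
  have h1 := hs1 ⟨Q, hQ, hlQ⟩ x
  have h2 : Nat.card (ℤ ⧸ Q.under ℤ) = p := by
    rw [← hlQ.over]
    have := Int.card_ideal_quot p
    exact this
  have h4 : s ⟨Q, hQ, hlQ⟩ • x - x ^ Nat.card (ℤ ⧸ Q.under ℤ) ∈ Q := h1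
  have h3 : s ⟨Q, hQ, hlQ⟩ • x - x ^ p ∈ Q := by
    rw [h2] at h4; exact h4
  rw [← neg_sub]
  exact Q.neg_mem h3

end

end Pool.Agent.Q98.SG
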