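import Mathlib
import Pool.Agent.Q98.SG.A
import Pool.Agent.Q98.SG.N

/-!
# Galois trace fields: small conjugacy classes, and finite exponent modulo the centre
-/

set_option autoImplicit false

open NumberField
open scoped Pointwise

namespace Pool.Agent.Q98.SG

open Pool.Agent.W738.SAL

section

variable {L : Type} [Field L] [NumberField L] [IsGalois ℚ L]

lemma exists_prime_above {p : ℕ} (hp : p.Prime) :
    ∃ P : Ideal (𝓞 L), P.IsPrime ∧ (p : 𝓞 L) ∈ P := by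
  have hm := maxZ hp
  obtain ⟨Q₀⟩ : Nonempty (Ideal.primesOver (Ideal.span {(p : ℤ)}) (𝓞 L)) := inferInstance
  refine ⟨Q₀.1, Q₀.2.1, ?_⟩
  have h2 := Q₀.2.2.over
  have h3 : (p : ℤ) ∈ Q₀.1.under ℤ := by
    rw [← h2]; exact Ideal.subset_span rfl
  simpa [Ideal.under_def, Ideal.mem_comap] using h3

/-- the congruences for a prime larger than the degree -/
theorem large_prime {q c : ℕ} (hq : q.Prime)
    (hc : ∀ σ : L ≃ₐ[ℚ] L, (conjugatesOf σ).ncard ≤ c) (hn : Module.finrank ℚ L < q) :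
    ∃ (j : ℕ) (S : Finset (L ≃ₐ[ℚ] L)), S.card ≤ c ∧ (j = 0 ∨ (j = 1 ∧ ∀ σ ∈ S, σ ≠ 1)) ∧
      ∀ T : 𝓞 L, (∏ σ ∈ S, (T ^ (q ^ (1 - j)) - σ • T)) ^ (q ^ j) ∈
        Ideal.span {(q : 𝓞 L)} := by
  classical
  obtain ⟨P, hP, hqP⟩ := exists_prime_above (L := L) hq
  have hcard : Nat.card (P.inertia (L ≃ₐ[ℚ] L)) ≤ Module.finrank ℚ L := by
    rw [← IsGalois.card_aut_eq_finrank ℚ L]
    exact Subgroup.card_le_card_group _
  by_cases he : Nat.card (P.inertia (L ≃ₐ[ℚ] L)) = 1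
  · -- unramified
    obtain ⟨s₀, hs₀⟩ := frob_all (L := L) hq
    have hfc : (conjugatesOf s₀).Finite := Set.toFinite _
    refine ⟨0, hfc.toFinset, ?_, Or.inl rfl, fun T => ?_⟩
    · rw [← Set.ncard_eq_toFinset_card _ hfc]
      exact hc _
    · have hram := ramLe_of (L := L) hq (m := 1) (fun Q hQ hqQ => by
        rw [ram_eq hq P Q hP hqP hQ hqQ, he])
      rw [pow_one] at hram
      rw [pow_zero, pow_one, Nat.sub_zero, pow_one]
      apply hram
      rw [Ideal.radical_eq_sInf, Ideal.mem_sInf]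
      rintro J ⟨hJ1, hJ2⟩
      have hJp : (q : 𝓞 L) ∈ J := hJ1 (Ideal.subset_span rfl)
      obtain ⟨s, hs, hx⟩ := hs₀ J hJ2 hJp
      have hmem : s ∈ hfc.toFinset := by
        rw [Set.Finite.mem_toFinset]
        exact hs.symm
      rw [← Finset.mul_prod_erase _ _ hmem]
      exact J.mul_mem_right _ (hx T)
  · -- ramified
    have hnt : P.inertia (L ≃ₐ[ℚ] L) ≠ ⊥ := by
      intro h
      apply he
      rw [h]
      exact Subgroup.card_bot
    obtain ⟨⟨σ₀, hσ₀⟩, hne'⟩ := Subgroup.ne_bot_iff_exists_ne_one.1 hnt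
    have hne : σ₀ ≠ 1 := fun h => hne' (Subtype.ext h)
    have hfc : (conjugatesOf σ₀).Finite := Set.toFinite _
    refine ⟨1, hfc.toFinset, ?_, Or.inr ⟨rfl, ?_⟩, fun T => ?_⟩
    · rw [← Set.ncard_eq_toFinset_card _ hfc]
      exact hc _
    · intro σ hσ h1
      rw [Set.Finite.mem_toFinset] at hσ
      have h2 : IsConj σ₀ σ := hσ
      rw [h1] at h2
      exact hne (isConj_one_left.1 h2)
    · have hram := ramLe_of (L := L) hq (m := q) (fun Q hQ hqQ => by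
        rw [ram_eq hq P Q hP hqP hQ hqQ]
        omega)
      rw [Nat.sub_self, pow_zero, pow_one, pow_one]
      apply hram
      apply Ideal.pow_mem_pow
      rw [Ideal.radical_eq_sInf, Ideal.mem_sInf]
      rintro J ⟨hJ1, hJ2⟩
      have hJp : (q : 𝓞 L) ∈ J := hJ1 (Ideal.subset_span rfl)
      obtain ⟨g, hg⟩ := exists_smul hq P J hP hqP hJ2 hJp
      have hmem : g * σ₀ * g⁻¹ ∈ hfc.toFinset := by
        rw [Set.Finite.mem_toFinset]
        exact isConj_iff.2 ⟨g, rfl⟩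
      rw [← Finset.mul_prod_erase _ _ hmem]
      apply J.mul_mem_right
      have h1 : σ₀ • (g⁻¹ • T) - g⁻¹ • T ∈ P := inert_smul hσ₀ _
      have h2 : g • (σ₀ • (g⁻¹ • T) - g⁻¹ • T) ∈ g • P := Ideal.smul_mem_pointwise_smul g _ P h1
      rw [hg, smul_sub, smul_inv_smul, ← mul_smul, ← mul_smul] at h2
      rw [← neg_sub]
      exact J.neg_mem h2

/-- the central power of Frobenius -/
theorem frob_central {p d : ℕ} (hp : p.Prime)
    (hcen : ∀ σ τ : L ≃ₐ[ℚ] L, σ ^ d * τ = τ * σ ^ d) :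
    ∃ σ : L ≃ₐ[ℚ] L, ∀ T : 𝓞 L,
      T ^ (p ^ d) - σ • T ∈ (Ideal.span {(p : 𝓞 L)}).radical := by
  classical
  obtain ⟨s₀, hs₀⟩ := frob_all (L := L) hp
  refine ⟨s₀ ^ d, fun T => ?_⟩
  rw [Ideal.radical_eq_sInf, Ideal.mem_sInf]
  rintro J ⟨hJ1, hJ2⟩
  have hJp : (p : 𝓞 L) ∈ J := hJ1 (Ideal.subset_span rfl)
  obtain ⟨s, hs, hx⟩ := hs₀ J hJ2 hJp
  have hpow : s ^ d = s₀ ^ d := by
    obtain ⟨g, hg⟩ := isConj_iff.1 hs
    rw [← hg, conj_pow, ← hcen, mul_assoc, mul_inv_cancel, mul_one]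
  rw [← hpow]
  have key : ∀ k : ℕ, T ^ (p ^ k) - s ^ k • T ∈ J := by
    intro k
    induction k with
    | zero => simp
    | succ k ih =>
      have h1 := hx (s ^ k • T)
      have h2 : (T ^ (p ^ k)) ^ p - (s ^ k • T) ^ p ∈ J := by
        obtain ⟨w, hw⟩ := sub_dvd_pow_sub_pow (T ^ (p ^ k)) (s ^ k • T) p
        rw [hw]
        exact J.mul_mem_right _ ih
      have h3 : T ^ (p ^ (k + 1)) - s ^ (k + 1) • T =
          ((T ^ (p ^ k)) ^ p - (s ^ k • T) ^ p) + ((s ^ k • T) ^ p - s • s ^ k • T) := by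
        rw [← pow_mul, ← pow_succ, pow_succ' s, mul_smul]
        ring
      rw [h3]
      exact J.add_mem h2 h1
  exact key d

omit [NumberField L] [IsGalois ℚ L] in
lemma class_card {G : Type*} [Group G] [Finite G] (σ : G) :
    (conjugatesOf σ).ncard * Nat.card (Subgroup.center G) ≤ Nat.card G := by
  classical
  have h1 : ∀ τ : conjugatesOf σ, ∃ g : G, g * σ * g⁻¹ = τ := fun τ => isConj_iff.1 τ.2
  choose g hg using h1
  have hinj : Function.Injective
      (fun x : conjugatesOf σ × Subgroup.center G => g x.1 * (x.2 : G)) := by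
    rintro ⟨τ, z⟩ ⟨τ', z'⟩ h
    simp only at h
    have h2 : ∀ (ρ : conjugatesOf σ) (y : Subgroup.center G),
        (g ρ * (y : G)) * σ * (g ρ * (y : G))⁻¹ = ρ := by
      intro ρ y
      have h3 : (y : G) * σ = σ * (y : G) := (Subgroup.mem_center_iff.1 y.2 σ).symm
      have h4 : (g ρ * (y : G)) * σ * (g ρ * (y : G))⁻¹ = g ρ * ((y : G) * σ * (y : G)⁻¹) * (g ρ)⁻¹ := by
        group
      rw [h4, h3, mul_inv_cancel_right]
      exact hg ρ
    have h4 : τ = τ' := by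
      apply Subtype.ext
      rw [← h2 τ z, ← h2 τ' z', h]
    subst h4
    have h5 : z = z' := Subtype.ext (mul_left_cancel h)
    rw [h5]
  have h6 := Nat.card_le_card_of_injective _ hinj
  rwa [Nat.card_prod, Nat.card_coe_set_eq] at h6

/-- ramification of a small prime, when the exponent modulo the centre is finite -/
theorem small_prime {p d : ℕ} (hp : p.Prime) (hd : 0 < d) (hdp : d < p)
    (hcen : ∀ σ τ : L ≃ₐ[ℚ] L, σ ^ d * τ = τ * σ ^ d) :
    ∃ e : ℕ, 0 < e ∧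
      (∀ m : ℕ, e ≤ m → (Ideal.span {(p : 𝓞 L)}).radical ^ m ≤ Ideal.span {(p : 𝓞 L)}) ∧
      ∀ σ : L ≃ₐ[ℚ] L, (conjugatesOf σ).ncard * e ≤ d * Module.finrank ℚ L := by
  classical
  obtain ⟨P, hP, hpP⟩ := exists_prime_above (L := L) hp
  obtain ⟨hP0, hfin⟩ := finQuot hp P hpP
  refine ⟨Nat.card (P.inertia (L ≃ₐ[ℚ] L)), Nat.card_pos, ?_, ?_⟩
  · intro m hm
    exact ramLe_of (L := L) hp (m := m) (fun Q hQ hpQ => by
      rw [ram_eq hp P Q hP hpP hQ hpQ]
      exact hm)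
  · intro σ
    have : FaithfulSMul (L ≃ₐ[ℚ] L) (𝓞 L) :=
      (inferInstance : IsGaloisGroup (L ≃ₐ[ℚ] L) ℤ (𝓞 L)).faithful
    have h1 := inertia_card_le (G := L ≃ₐ[ℚ] L) hP0 hp hpP hd hdp hcen
    have h2 := class_card σ
    rw [IsGalois.card_aut_eq_finrank] at h2
    calc (conjugatesOf σ).ncard * Nat.card (P.inertia (L ≃ₐ[ℚ] L))
        ≤ (conjugatesOf σ).ncard * (d * Nat.card (Subgroup.center (L ≃ₐ[ℚ] L))) :=
          Nat.mul_le_mul_left _ h1
      _ = d * ((conjugatesOf σ).ncard * Nat.card (Subgroup.center (L ≃ₐ[ℚ] L))) := by ring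
      _ ≤ d * Module.finrank ℚ L := Nat.mul_le_mul_left _ h2

end

end Pool.Agent.Q98.SG
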