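import Mathlib
import Pool.Agent.Q98.SG.N

/-!
# Inertia groups of groups of finite exponent modulo the centre; bad primes
-/

set_option autoImplicit false

open NumberField
open scoped Pointwise

namespace Pool.Agent.Q98.SG

section

variable {S : Type*} [CommRing S] [IsDedekindDomain S] {G : Type*} [Group G]
  [MulSemiringAction G S] {P : Ideal S} [hPp : P.IsPrime]

/-- if all `d`-th powers are central and `0 < d < p`, the inertia group is covered by `d` cosets
of its intersection with the centre -/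
theorem inertia_card_le' [Finite G] [FaithfulSMul G S] (hP0 : P ≠ ⊥) [Finite (S ⧸ P)] {p : ℕ}
    (hp : p.Prime) (hpP : (p : S) ∈ P) {d : ℕ} (hd : 0 < d) (hdp : d < p)
    (hcen : ∀ σ τ : G, σ ^ d * τ = τ * σ ^ d) :
    Nat.card (P.inertia G) ≤ d * Nat.card (P.inertia G ⊓ Subgroup.center G : Subgroup G) := by
  classical
  obtain ⟨π, hπ, hgen, θ, hθ⟩ := tame_char (G := G) (P := P) hP0
  have hmax : P.IsMaximal := hPp.isMaximal hP0
  let _ : Field (S ⧸ P) := Ideal.Quotient.field P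
  have hker : ∀ w : P.inertia G, θ w = 1 → (w : G) ∈ Subgroup.center G := by
    intro w hw
    have hw0 : 0 < orderOf (w : G) := orderOf_pos _
    obtain ⟨a, m, hm, hab⟩ := Nat.exists_eq_pow_mul_and_not_dvd hw0.ne' p hp.ne_one
    have h1 : (w : G) ^ (p ^ a) = 1 := by
      have h3 : θ (w ^ (p ^ a)) = 1 := by rw [map_pow, hw, one_pow]
      have h4 := hθ _ h3
      have h5 : (((w ^ (p ^ a) : P.inertia G) : G)) = (w : G) ^ (p ^ a) := by
        rw [Subgroup.coe_pow]
      rw [h5] at h4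
      have h6 : (w : G) ^ (p ^ a) ∈ P.inertia G := Subgroup.pow_mem _ w.2 _
      refine tame_trivial h6 hπ hgen h4 (m := m) ?_ ?_
      · rw [← pow_mul, ← hab]
        exact pow_orderOf_eq_one _
      · intro h7
        have h8 : IsCoprime (p : ℤ) (m : ℤ) :=
          Nat.isCoprime_iff_coprime.2 ((Nat.Prime.coprime_iff_not_dvd hp).2 hm)
        obtain ⟨x, y, hxy⟩ := h8
        apply hPp.ne_top
        rw [Ideal.eq_top_iff_one]
        have h9 : (1 : S) = (x : S) * (p : S) + (y : S) * (m : S) := by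
          have := congrArg (Int.cast : ℤ → S) hxy
          push_cast at this
          exact this.symm
        rw [h9]
        exact P.add_mem (P.mul_mem_left _ hpP) (P.mul_mem_left _ h7)
    have h2 : (w : G) ^ d ∈ Subgroup.center G := by
      rw [Subgroup.mem_center_iff]
      intro g
      exact (hcen _ g).symm
    have h3 : Nat.Coprime (p ^ a) d := by
      apply Nat.Coprime.pow_left
      rw [Nat.Prime.coprime_iff_not_dvd hp]
      intro h4
      exact absurd (Nat.le_of_dvd hd h4) (by omega)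
    have h4 : IsCoprime ((p ^ a : ℕ) : ℤ) (d : ℤ) := Nat.isCoprime_iff_coprime.2 h3
    obtain ⟨x, y, hxy⟩ := h4
    have h5 : (w : G) = ((w : G) ^ (p ^ a)) ^ x * ((w : G) ^ d) ^ y := by
      rw [← zpow_natCast, ← zpow_natCast, ← zpow_mul, ← zpow_mul, ← zpow_add]
      have : ((p ^ a : ℕ) : ℤ) * x + (d : ℤ) * y = 1 := by rw [← hxy]; ring
      rw [this, zpow_one]
    rw [h5, h1, one_zpow, one_mul]
    exact Subgroup.zpow_mem _ h2 _
  let θ' : P.inertia G →* (S ⧸ P)ˣ := θ.toHomUnits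
  have hcyc : IsCyclic θ'.range := inferInstance
  obtain ⟨⟨_, τ, rfl⟩, hgenr⟩ := hcyc.exists_generator
  have hcov : ∀ σ : P.inertia G, ∃ j : Fin d,
      ∃ z : (P.inertia G ⊓ Subgroup.center G : Subgroup G),
      (σ : G) = (τ : G) ^ (j : ℕ) * (z : G) := by
    intro σ
    obtain ⟨k, hk⟩ := hgenr ⟨θ' σ, σ, rfl⟩
    have hk' : θ' τ ^ k = θ' σ := congrArg Subtype.val hk
    set w : P.inertia G := τ ^ (-k) * σ with hw
    have h1 : θ' w = 1 := by
      rw [hw, map_mul, map_zpow, zpow_neg, hk', inv_mul_cancel]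
    have h2 : θ w = 1 := by
      have := congrArg Units.val h1
      simpa [θ'] using this
    have h3 := hker w h2
    have h4 : (σ : G) = (τ : G) ^ k * (w : G) := by
      rw [hw]
      push_cast
      rw [zpow_neg, mul_inv_cancel_left]
    have hd0 : (d : ℤ) ≠ 0 := by exact_mod_cast hd.ne'
    have h5 : 0 ≤ k % d := Int.emod_nonneg _ hd0
    have h6 : k % d < d := Int.emod_lt_of_pos _ (by exact_mod_cast hd)
    refine ⟨⟨(k % d).toNat, by omega⟩, ⟨((τ : G) ^ d) ^ (k / d) * (w : G), ?_⟩, ?_⟩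
    · rw [Subgroup.mem_inf]
      constructor
      · exact Subgroup.mul_mem _ (Subgroup.zpow_mem _ (Subgroup.pow_mem _ τ.2 _) _) w.2
      · refine Subgroup.mul_mem _ (Subgroup.zpow_mem _ ?_ _) h3
        rw [Subgroup.mem_center_iff]
        intro g
        exact (hcen _ g).symm
    · simp only
      rw [h4, ← mul_assoc]
      congr 1
      rw [← zpow_natCast, ← zpow_natCast, ← zpow_mul, ← zpow_add, Int.toNat_of_nonneg h5,
        Int.emod_add_mul_ediv]
  choose J Z hJZ using hcov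
  have hinj : Function.Injective (fun σ : P.inertia G => (J σ, Z σ)) := by
    intro σ τ' h
    have h1 : J σ = J τ' := congrArg Prod.fst h
    have h2 : Z σ = Z τ' := congrArg Prod.snd h
    apply Subtype.ext
    rw [hJZ σ, hJZ τ', h1, h2]
  have h1 := Nat.card_le_card_of_injective _ hinj
  rwa [Nat.card_prod, Nat.card_fin] at h1

end

section

variable {L : Type} [Field L] [NumberField L]

/-- the absolute value of the norm -/
noncomputable def nm (x : 𝓞 L) : ℕ := (Algebra.norm ℤ x).natAbs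

lemma nm_mul (x y : 𝓞 L) : nm (x * y) = nm x * nm y := by
  unfold nm
  rw [map_mul, Int.natAbs_mul]

lemma nm_pow (x : 𝓞 L) (k : ℕ) : nm (x ^ k) = nm x ^ k := by
  unfold nm
  rw [map_pow, Int.natAbs_pow]

lemma nm_natCast (p : ℕ) : nm (p : 𝓞 L) = p ^ Module.finrank ℚ L := by
  unfold nm
  have h1 := Algebra.norm_algebraMap (R := ℤ) (S := 𝓞 L) (p : ℤ)
  rw [RingOfIntegers.rank] at h1
  have h2 : algebraMap ℤ (𝓞 L) (p : ℤ) = (p : 𝓞 L) := by simp
  rw [h2] at h1
  rw [h1, Int.natAbs_pow, Int.natAbs_natCast]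

lemma nm_ne_zero {x : 𝓞 L} (hx : x ≠ 0) : nm x ≠ 0 := by
  unfold nm
  rw [Int.natAbs_ne_zero]
  exact Algebra.norm_ne_zero_iff.2 hx

variable [IsGalois ℚ L]

open Classical in
/-- the central elements other than `1` -/
noncomputable def cen (L : Type) [Field L] [NumberField L] : Finset (L ≃ₐ[ℚ] L) :=
  Finset.univ.filter (fun z => z ∈ Subgroup.center (L ≃ₐ[ℚ] L) ∧ z ≠ 1)

/-- the product of the norms of `T - z T`, over the central elements `z ≠ 1` -/
noncomputable def DD (T : 𝓞 L) : ℕ := ∏ z ∈ cen L, nm (T - z • T)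

/-- either the ramification index is at most `d`, or `p` is bad -/
theorem bad_dvd {p d : ℕ} (hp : p.Prime) (hd : 0 < d) (hdp : d < p)
    (hcen : ∀ σ τ : L ≃ₐ[ℚ] L, σ ^ d * τ = τ * σ ^ d) {T : 𝓞 L}
    (hT : ∀ z ∈ cen L, z • T ≠ T) :
    ((Ideal.span {(p : 𝓞 L)}).radical ^ d ≤ Ideal.span {(p : 𝓞 L)}) ∨
      p ^ Module.finrank ℚ L ∣ DD T ^ (2 * d) := by
  classical
  have hm := maxZ hp
  obtain ⟨Q₀⟩ : Nonempty (Ideal.primesOver (Ideal.span {(p : ℤ)}) (𝓞 L)) := inferInstance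
  set P : Ideal (𝓞 L) := Q₀.1 with hPdef
  have hP : P.IsPrime := Q₀.2.1
  have hpP : (p : 𝓞 L) ∈ P := by
    have h2 := Q₀.2.2.over
    have h3 : (p : ℤ) ∈ Q₀.1.under ℤ := by
      rw [← h2]; exact Ideal.subset_span rfl
    simpa [Ideal.under_def, Ideal.mem_comap] using h3
  obtain ⟨hP0, hfin⟩ := finQuot hp P hpP
  set e := Nat.card (P.inertia (L ≃ₐ[ℚ] L)) with he
  have hram : ∀ m : ℕ, e ≤ m →
      (Ideal.span {(p : 𝓞 L)}).radical ^ m ≤ Ideal.span {(p : 𝓞 L)} := fun m hm =>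
    ramLe_of (L := L) hp (m := m) (fun Q hQ hpQ => by
      rw [ram_eq hp P Q hP hpP hQ hpQ]
      exact hm)
  by_cases hbad : e ≤ d
  · left
    exact hram d hbad
  right
  push Not at hbad
  set I := P.inertia (L ≃ₐ[ℚ] L) with hI
  set SS : Subgroup (L ≃ₐ[ℚ] L) := I ⊓ Subgroup.center (L ≃ₐ[ℚ] L) with hSS
  have hfs : FaithfulSMul (L ≃ₐ[ℚ] L) (𝓞 L) :=
    (inferInstance : IsGaloisGroup (L ≃ₐ[ℚ] L) ℤ (𝓞 L)).faithful
  have h1 : e ≤ d * Nat.card SS := inertia_card_le' (G := L ≃ₐ[ℚ] L) hP0 hp hpP hd hdp hcen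
  set s := Nat.card SS with hs
  have hs2 : 2 ≤ s := by
    by_contra hcon
    have : s ≤ 1 := by omega
    have : d * s ≤ d * 1 := Nat.mul_le_mul_left _ this
    omega
  set N := Module.finrank ℚ L with hN
  -- the elements of `SS` are in all inertia groups
  have hdiff : ∀ z ∈ SS, T - z • T ∈ (Ideal.span {(p : 𝓞 L)}).radical := by
    intro z hz
    rw [hSS, Subgroup.mem_inf] at hz
    rw [Ideal.radical_eq_sInf, Ideal.mem_sInf]
    rintro J ⟨hJ1, hJ2⟩
    have hJp : (p : 𝓞 L) ∈ J := hJ1 (Ideal.subset_span rfl)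
    obtain ⟨g, hg⟩ := exists_smul hp P J hP hpP hJ2 hJp
    have h1 : z • (g⁻¹ • T) - g⁻¹ • T ∈ P := inert_smul hz.1 _
    have h2 : g • (z • (g⁻¹ • T) - g⁻¹ • T) ∈ g • P := Ideal.smul_mem_pointwise_smul g _ P h1
    have h3 : g * z * g⁻¹ = z := by
      rw [Subgroup.mem_center_iff.1 hz.2 g, mul_inv_cancel_right]
    rw [hg, smul_sub, smul_inv_smul, ← mul_smul, ← mul_smul, h3] at h2
    rw [← neg_sub]
    exact J.neg_mem h2
  have hdvd1 : ∀ z ∈ SS, p ^ N ∣ nm (T - z • T) ^ e := by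
    intro z hz
    have h2 := hram e le_rfl (Ideal.pow_mem_pow (hdiff z hz) e)
    obtain ⟨y, hy⟩ := Ideal.mem_span_singleton.1 h2
    rw [← nm_pow, hy, nm_mul, nm_natCast]
    exact Dvd.intro _ rfl
  -- the product over `SS`
  set S1 : Finset (L ≃ₐ[ℚ] L) := Finset.univ.filter (fun z => z ∈ SS ∧ z ≠ 1) with hS1
  have hS1card : S1.card = s - 1 := by
    have h2 : S1 = (Finset.univ.filter (fun z => z ∈ SS)).erase 1 := by
      ext z
      rw [hS1, Finset.mem_filter, Finset.mem_erase, Finset.mem_filter]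
      tauto
    rw [h2, Finset.card_erase_of_mem (by
      rw [Finset.mem_filter]
      exact ⟨Finset.mem_univ _, SS.one_mem⟩)]
    congr 1
    rw [hs, Nat.card_eq_fintype_card]
    exact (Fintype.card_subtype _).symm
  have hS1sub : S1 ⊆ cen L := by
    intro z hz
    rw [hS1, Finset.mem_filter] at hz
    unfold cen
    rw [Finset.mem_filter]
    exact ⟨Finset.mem_univ _, (Subgroup.mem_inf.1 hz.2.1).2, hz.2.2⟩
  have hdvd2 : p ^ (N * (s - 1)) ∣ DD T ^ e := by
    have h2 : ∏ z ∈ S1, p ^ N ∣ ∏ z ∈ S1, nm (T - z • T) ^ e := by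
      apply Finset.prod_dvd_prod_of_dvd
      intro z hz
      rw [hS1, Finset.mem_filter] at hz
      exact hdvd1 z hz.2.1
    rw [Finset.prod_const, hS1card, ← pow_mul] at h2
    refine h2.trans ?_
    rw [Finset.prod_pow]
    exact pow_dvd_pow_of_dvd (Finset.prod_dvd_prod_of_subset _ _ _ hS1sub) e
  have hD0 : DD T ≠ 0 := by
    unfold DD
    rw [Finset.prod_ne_zero_iff]
    intro z hz
    apply nm_ne_zero
    intro h
    exact hT z hz (sub_eq_zero.1 h).symm
  have h3 : N * (s - 1) ≤ e * (DD T).factorization p := by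
    have h4 := (Nat.Prime.pow_dvd_iff_le_factorization hp (pow_ne_zero e hD0)).1 hdvd2
    rwa [Nat.factorization_pow, Finsupp.smul_apply, smul_eq_mul] at h4
  rw [Nat.Prime.pow_dvd_iff_le_factorization hp (pow_ne_zero _ hD0), Nat.factorization_pow,
    Finsupp.smul_apply, smul_eq_mul]
  set v := (DD T).factorization p with hv
  -- `e ≤ d s ≤ 2 d (s - 1)`
  have h5 : e ≤ 2 * d * (s - 1) := by
    obtain ⟨k, hk⟩ := Nat.exists_eq_add_of_le hs2
    rw [hk] at h1 ⊢
    have h6 : 2 + k - 1 = 1 + k := by omega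
    rw [h6]
    nlinarith
  have he0 : 0 < e := by omega
  have h6 : N * e ≤ (2 * d * v) * e := by
    calc N * e ≤ N * (2 * d * (s - 1)) := Nat.mul_le_mul_left _ h5
      _ = 2 * d * (N * (s - 1)) := by ring
      _ ≤ 2 * d * (e * v) := Nat.mul_le_mul_left _ h3
      _ = (2 * d * v) * e := by ring
  exact Nat.le_of_mul_le_mul_right h6 he0

end

end Pool.Agent.Q98.SG
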