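import Mathlib

/-!
# A bound for Vandermonde determinants at points `w + w⁻¹`
-/

set_option autoImplicit false

open Polynomial Finset

namespace Pool.Agent.Q98.SG

lemma dk (n : ℕ) : (∃ r : ℂ[X], r.degree < ((n + 1 : ℕ) : WithBot ℕ) ∧
      dickson 1 (1 : ℂ) (n + 1) = X ^ (n + 1) + r) ∧
    (∃ r : ℂ[X], r.degree < ((n + 2 : ℕ) : WithBot ℕ) ∧
      dickson 1 (1 : ℂ) (n + 2) = X ^ (n + 2) + r) := by
  induction n with
  | zero =>
    constructor
    · refine ⟨0, ?_, ?_⟩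
      · rw [degree_zero]; exact WithBot.bot_lt_coe _
      · rw [zero_add, dickson_one]; ring
    · refine ⟨-C (2:ℂ), ?_, ?_⟩
      · rw [degree_neg]
        refine lt_of_le_of_lt degree_C_le ?_
        norm_num
      · rw [zero_add, dickson_two]
        have h2 : (C (2:ℂ) : ℂ[X]) = 2 := rfl
        rw [h2, C_1]
        norm_num
        ring
  | succ n ih =>
    obtain ⟨⟨r1, h1, e1⟩, ⟨r2, h2, e2⟩⟩ := ih
    refine ⟨⟨r2, h2, e2⟩, ?_⟩
    refine ⟨X * r2 - X ^ (n + 1) - r1, ?_, ?_⟩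
    · have ha : (X * r2).degree < ((n + 1 + 2 : ℕ) : WithBot ℕ) := by
        by_cases hr : r2 = 0
        · rw [hr, mul_zero, degree_zero]; exact WithBot.bot_lt_coe _
        · rw [degree_mul, degree_X, degree_eq_natDegree hr]
          rw [degree_eq_natDegree hr] at h2
          have h3 : r2.natDegree < n + 2 := by exact_mod_cast h2
          have h4 : 1 + r2.natDegree < n + 1 + 2 := by omega
          exact_mod_cast h4
      have hb : (X ^ (n + 1) : ℂ[X]).degree < ((n + 1 + 2 : ℕ) : WithBot ℕ) := by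
        rw [degree_X_pow]
        have : n + 1 < n + 1 + 2 := by omega
        exact_mod_cast this
      have hc : r1.degree < ((n + 1 + 2 : ℕ) : WithBot ℕ) := by
        refine h1.trans ?_
        have : n + 1 < n + 1 + 2 := by omega
        exact_mod_cast this
      refine lt_of_le_of_lt (degree_sub_le _ _) (max_lt ?_ hc)
      exact lt_of_le_of_lt (degree_sub_le _ _) (max_lt ha hb)
    · have h3 : dickson 1 (1 : ℂ) (n + 1 + 2) =
          X * dickson 1 (1 : ℂ) (n + 2) - C 1 * dickson 1 (1 : ℂ) (n + 1) := dickson_add_two _ _ _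
      rw [h3, e1, e2, C_1]
      ring

/-- monic polynomials with `q j (w + w⁻¹) = w ^ j + w ^ (-j)` -/
noncomputable def qq (j : ℕ) : ℂ[X] := if j = 0 then 1 else dickson 1 1 j

lemma qq_monic (j : ℕ) : (qq j).Monic := by
  unfold qq
  rcases j with _ | j
  · simp
  · rw [if_neg (by omega)]
    obtain ⟨⟨r, h, e⟩, -⟩ := dk j
    rw [e]
    exact monic_X_pow_add h

lemma qq_natDegree (j : ℕ) : (qq j).natDegree = j := by
  unfold qq
  rcases j with _ | j
  · simp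
  · rw [if_neg (by omega)]
    obtain ⟨⟨r, h, e⟩, -⟩ := dk j
    rw [e]
    apply natDegree_eq_of_degree_eq_some
    rw [degree_add_eq_left_of_degree_lt (by rw [degree_X_pow]; exact h), degree_X_pow]

lemma norm_qq {w : ℂ} (hw : 1 ≤ ‖w‖) {j k : ℕ} (hjk : j ≤ k) :
    ‖(qq j).eval (w + w⁻¹)‖ ≤ 2 * ‖w‖ ^ k := by
  have h1 : 1 ≤ ‖w‖ ^ k := one_le_pow₀ hw
  have hw0 : w ≠ 0 := by
    intro h
    rw [h, norm_zero] at hw
    linarith
  unfold qq
  split_ifs with h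
  · simp only [eval_one, norm_one]
    linarith
  · rw [dickson_one_one_eval_add_inv w w⁻¹ (mul_inv_cancel₀ hw0) j]
    refine (norm_add_le _ _).trans ?_
    rw [norm_pow, norm_pow, norm_inv]
    have h2 : ‖w‖ ^ j ≤ ‖w‖ ^ k := pow_le_pow_right₀ hw hjk
    have h3 : (‖w‖⁻¹) ^ j ≤ 1 := pow_le_one₀ (by positivity) (inv_le_one_of_one_le₀ hw)
    linarith

lemma det_bound {s : ℕ} (w : Fin s → ℂ) (hw : ∀ i, 1 ≤ ‖w i‖) :
    ‖(Matrix.vandermonde (fun i => w i + (w i)⁻¹)).det‖ ≤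
      (2 * s) ^ s * (∏ i, ‖w i‖) ^ (s - 1) := by
  rw [Matrix.det_eval_matrixOfPolynomials_eq_det_vandermonde _ (fun j : Fin s => qq j)
    (fun i => qq_natDegree i) (fun i => qq_monic i)]
  set A : Matrix (Fin s) (Fin s) ℂ :=
    Matrix.of (fun i j => (qq (j : ℕ)).eval (w i + (w i)⁻¹)) with hA
  have hent : ∀ i j, ‖A i j‖ ≤ 2 * ‖w i‖ ^ (s - 1) := by
    intro i j
    exact norm_qq (hw i) (by have := j.2; omega)
  have h1 : ‖A.det‖ ≤ ∑ σ : Equiv.Perm (Fin s), (2 ^ s * (∏ i, ‖w i‖) ^ (s - 1)) := by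
    rw [Matrix.det_apply]
    refine (norm_sum_le _ _).trans ?_
    refine sum_le_sum fun σ _ => ?_
    have h2 : ‖Equiv.Perm.sign σ • ∏ i, A (σ i) i‖ = ∏ i, ‖A (σ i) i‖ := by
      rcases Int.units_eq_one_or (Equiv.Perm.sign σ) with h | h <;> rw [h] <;> simp [norm_prod]
    rw [h2]
    calc ∏ i, ‖A (σ i) i‖ ≤ ∏ i, (2 * ‖w (σ i)‖ ^ (s - 1)) :=
          prod_le_prod (fun i _ => norm_nonneg _) (fun i _ => hent _ _)
      _ = ∏ i, (2 * ‖w i‖ ^ (s - 1)) := Equiv.prod_comp σ (fun i => 2 * ‖w i‖ ^ (s - 1))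
      _ = 2 ^ s * (∏ i, ‖w i‖) ^ (s - 1) := by
          rw [prod_mul_distrib, prod_pow, prod_const, card_univ, Fintype.card_fin]
  rw [sum_const, card_univ, Fintype.card_perm, Fintype.card_fin, nsmul_eq_mul] at h1
  refine h1.trans ?_
  have h3 : ((s.factorial : ℕ) : ℝ) ≤ (s : ℝ) ^ s := by exact_mod_cast Nat.factorial_le_pow s
  have h4 : 0 ≤ (2:ℝ) ^ s * (∏ i, ‖w i‖) ^ (s - 1) := by
    have : 0 ≤ ∏ i, ‖w i‖ := prod_nonneg fun i _ => norm_nonneg _
    positivity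
  calc ((s.factorial : ℕ) : ℝ) * (2 ^ s * (∏ i, ‖w i‖) ^ (s - 1))
      ≤ (s : ℝ) ^ s * (2 ^ s * (∏ i, ‖w i‖) ^ (s - 1)) := mul_le_mul_of_nonneg_right h3 h4
    _ = (2 * s) ^ s * (∏ i, ‖w i‖) ^ (s - 1) := by rw [mul_pow]; ring

lemma ordered_prod {s : ℕ} (x : Fin s → ℂ) :
    ∏ i, ∏ j ∈ univ.erase i, ‖x i - x j‖ = ‖(Matrix.vandermonde x).det‖ ^ 2 := by
  have h1 : ∀ i : Fin s, ∏ j ∈ univ.erase i, ‖x i - x j‖ =
      (∏ j ∈ Iio i, ‖x i - x j‖) * ∏ j ∈ Ioi i, ‖x i - x j‖ := by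
    intro i
    rw [← prod_union]
    · congr 1
      ext j
      simp only [mem_erase, mem_univ, and_true, mem_union, mem_Iio, mem_Ioi]
      exact ne_iff_lt_or_gt
    · rw [disjoint_left]
      intro j hj hj'
      rw [mem_Iio] at hj
      rw [mem_Ioi] at hj'
      exact absurd hj (not_lt.2 hj'.le)
  rw [prod_congr rfl (fun i _ => h1 i), prod_mul_distrib]
  have h2 : ∏ i : Fin s, ∏ j ∈ Iio i, ‖x i - x j‖ = ∏ i : Fin s, ∏ j ∈ Ioi i, ‖x i - x j‖ := by
    rw [prod_comm' (t' := univ) (s' := fun j => Ioi j) (by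
      intro i j
      simp)]
    refine prod_congr rfl fun i _ => prod_congr rfl fun j _ => ?_
    exact norm_sub_rev _ _
  rw [h2, Matrix.det_vandermonde, norm_prod]
  have h3 : ∀ i : Fin s, ‖∏ j ∈ Ioi i, (x j - x i)‖ = ∏ j ∈ Ioi i, ‖x i - x j‖ := by
    intro i
    rw [norm_prod]
    exact prod_congr rfl fun j _ => norm_sub_rev _ _
  rw [prod_congr rfl (fun i _ => h3 i), pow_two]

/-- the bound for an arbitrary finite index set -/
theorem vander_bound {ι : Type*} [Fintype ι] [DecidableEq ι] (w : ι → ℂ) (hw : ∀ i, 1 ≤ ‖w i‖) :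
    ∏ i, ∏ j ∈ univ.erase i, ‖(w i + (w i)⁻¹) - (w j + (w j)⁻¹)‖ ≤
      ((2 * Fintype.card ι) ^ Fintype.card ι * (∏ i, ‖w i‖) ^ (Fintype.card ι - 1)) ^ 2 := by
  set s := Fintype.card ι with hs
  let e : Fin s ≃ ι := (Fintype.equivFin ι).symm
  have h1 : ∏ i, ∏ j ∈ univ.erase i, ‖(w i + (w i)⁻¹) - (w j + (w j)⁻¹)‖ =
      ∏ i : Fin s, ∏ j ∈ univ.erase i,
        ‖(w (e i) + (w (e i))⁻¹) - (w (e j) + (w (e j))⁻¹)‖ := by
    rw [← Equiv.prod_comp e]
    refine prod_congr rfl fun i _ => ?_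
    refine (prod_bij (fun j _ => e j) ?_ ?_ ?_ ?_).symm
    · intro j hj
      rw [mem_erase] at hj ⊢
      exact ⟨fun h => hj.1 (e.injective h), mem_univ _⟩
    · intro a _ b _ h
      exact e.injective h
    · intro b hb
      rw [mem_erase] at hb
      refine ⟨e.symm b, ?_, e.apply_symm_apply b⟩
      rw [mem_erase]
      refine ⟨?_, mem_univ _⟩
      rintro rfl
      exact hb.1 (e.apply_symm_apply b).symm
    · intro j _
      rfl
  have h2 : ∏ i, ‖w i‖ = ∏ i : Fin s, ‖w (e i)‖ := (Equiv.prod_comp e _).symm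
  rw [h1, h2]
  have h3 := ordered_prod (fun i : Fin s => w (e i) + (w (e i))⁻¹)
  rw [h3]
  exact pow_le_pow_left₀ (norm_nonneg _) (det_bound (fun i => w (e i)) (fun i => hw _)) 2

end Pool.Agent.Q98.SG
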