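import Mathlib
import Pool.Agent.Q98.SG.T2
import Pool.Agent.Q98.SG.V
import Pool.Agent.Q98.SG.M
import Pool.Agent.W628.AbSalem.Norm

/-!
# The bound for the product over the centre, and the bound from a good prime
-/

set_option autoImplicit false

open NumberField Polynomial

namespace Pool.Agent.Q98.SG

variable {L : Type} [Field L] [NumberField L] [IsGalois ℚ L]

lemma nm_eq (ι : L →ₐ[ℚ] ℂ) (x : 𝓞 L) :
    (nm x : ℝ) = ∏ g : L ≃ₐ[ℚ] L, ‖ι (g (x : L))‖ := by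
  unfold nm
  rw [← norm_prod, ← map_prod, ← Algebra.norm_eq_prod_automorphisms]
  have h1 : ((Algebra.norm ℤ x : ℤ) : ℚ) = Algebra.norm ℚ (x : L) := by
    have := Algebra.coe_norm_int x
    exact this
  rw [← h1]
  have h2 : ι (algebraMap ℚ L ((Algebra.norm ℤ x : ℤ) : ℚ)) = ((Algebra.norm ℤ x : ℤ) : ℂ) := by
    simp
  rw [h2, Complex.norm_intCast, ← Int.cast_abs, Int.abs_eq_natAbs, Int.cast_natCast]

open Classical in
/-- the number of central elements -/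
noncomputable def sc (L : Type) [Field L] [NumberField L] : ℕ :=
  Nat.card (Subgroup.center (L ≃ₐ[ℚ] L))

open Classical in
theorem DD_le (ι : L →ₐ[ℚ] ℂ) (T : 𝓞 L) (Z : L → ℂ)
    (hZ : ∀ s : L ≃ₐ[ℚ] L, 1 ≤ ‖Z (s (T : L))‖ ∧
      Z (s (T : L)) + (Z (s (T : L)))⁻¹ = ι (s (T : L))) :
    (DD T : ℝ) ≤ ((2 * sc L : ℝ) ^ 2) ^ Module.finrank ℚ L *
      (∏ g : L ≃ₐ[ℚ] L, ‖Z (g (T : L))‖) ^ (2 * (sc L - 1)) := by
  set N := Module.finrank ℚ L with hN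
  have hGN : Fintype.card (L ≃ₐ[ℚ] L) = N := by
    rw [hN, ← IsGalois.card_aut_eq_finrank ℚ L, Nat.card_eq_fintype_card]
  set C := Subgroup.center (L ≃ₐ[ℚ] L) with hC
  have hs : Fintype.card C = sc L := by
    unfold sc
    rw [Nat.card_eq_fintype_card]
  set s := sc L with hsdef
  set ML := ∏ g : L ≃ₐ[ℚ] L, ‖Z (g (T : L))‖ with hML
  have hML0 : 0 ≤ ML := Finset.prod_nonneg fun _ _ => norm_nonneg _
  have hs0 : s ≠ 0 := by
    rw [← hs]
    exact Fintype.card_ne_zero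
  -- the local bound
  have hloc : ∀ g : L ≃ₐ[ℚ] L, ∏ z : C, ∏ z' ∈ Finset.univ.erase z,
      ‖ι (g ((z : L ≃ₐ[ℚ] L) (T : L))) - ι (g ((z' : L ≃ₐ[ℚ] L) (T : L)))‖ ≤
      ((2 * s : ℝ) ^ s * (∏ z : C, ‖Z (g ((z : L ≃ₐ[ℚ] L) (T : L)))‖) ^ (s - 1)) ^ 2 := by
    intro g
    have h1 := vander_bound (ι := C) (fun z => Z (g ((z : L ≃ₐ[ℚ] L) (T : L)))) (fun z => by
      have := (hZ (g * z)).1
      exact this)
    rw [hs] at h1
    refine le_trans (le_of_eq ?_) h1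
    refine Finset.prod_congr rfl fun z _ => Finset.prod_congr rfl fun z' _ => ?_
    have e1 := (hZ (g * z)).2
    have e2 := (hZ (g * z')).2
    rw [AlgEquiv.mul_apply] at e1 e2
    rw [e1, e2]
  -- the product over `g`
  set Δ : ℝ := ∏ g : L ≃ₐ[ℚ] L, ∏ u ∈ Finset.univ.erase (1 : C),
    ‖ι (g (T : L)) - ι (g ((u : L ≃ₐ[ℚ] L) (T : L)))‖ with hΔ
  have hΔ0 : 0 ≤ Δ := Finset.prod_nonneg fun _ _ => Finset.prod_nonneg fun _ _ => norm_nonneg _
  have hL : ∏ g : L ≃ₐ[ℚ] L, ∏ z : C, ∏ z' ∈ Finset.univ.erase z,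
      ‖ι (g ((z : L ≃ₐ[ℚ] L) (T : L))) - ι (g ((z' : L ≃ₐ[ℚ] L) (T : L)))‖ = Δ ^ s := by
    rw [Finset.prod_comm]
    have h1 : ∀ z : C, ∏ g : L ≃ₐ[ℚ] L, ∏ z' ∈ Finset.univ.erase z,
        ‖ι (g ((z : L ≃ₐ[ℚ] L) (T : L))) - ι (g ((z' : L ≃ₐ[ℚ] L) (T : L)))‖ = Δ := by
      intro z
      rw [hΔ, ← Equiv.prod_comp (Equiv.mulRight ((z : L ≃ₐ[ℚ] L)))
        (fun g : L ≃ₐ[ℚ] L => ∏ u ∈ Finset.univ.erase (1 : C),
          ‖ι (g (T : L)) - ι (g ((u : L ≃ₐ[ℚ] L) (T : L)))‖)]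
      refine Finset.prod_congr rfl fun g _ => ?_
      refine Finset.prod_bij (fun z' _ => z⁻¹ * z') ?_ ?_ ?_ ?_
      · intro z' hz'
        rw [Finset.mem_erase] at hz' ⊢
        refine ⟨?_, Finset.mem_univ _⟩
        intro h
        exact hz'.1 (inv_mul_eq_one.1 h).symm
      · intro a _ b _ h
        exact mul_left_cancel h
      · intro b hb
        rw [Finset.mem_erase] at hb
        refine ⟨z * b, ?_, by rw [inv_mul_cancel_left]⟩
        rw [Finset.mem_erase]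
        refine ⟨?_, Finset.mem_univ _⟩
        intro h
        exact hb.1 (mul_eq_left.1 h)
      · intro z' _
        have h2 : (Equiv.mulRight (z : L ≃ₐ[ℚ] L)) g (((z⁻¹ * z' : C) : L ≃ₐ[ℚ] L) (T : L)) =
            g ((z' : L ≃ₐ[ℚ] L) (T : L)) := by
          rw [Equiv.coe_mulRight, ← AlgEquiv.mul_apply]
          push_cast
          rw [mul_assoc, mul_inv_cancel_left, AlgEquiv.mul_apply]
        rw [h2]
        rfl
    rw [Finset.prod_congr rfl (fun z _ => h1 z), Finset.prod_const, Finset.card_univ, hs]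
  have hR : ∏ g : L ≃ₐ[ℚ] L,
      ((2 * s : ℝ) ^ s * (∏ z : C, ‖Z (g ((z : L ≃ₐ[ℚ] L) (T : L)))‖) ^ (s - 1)) ^ 2 =
      (((2 * s : ℝ) ^ 2) ^ N * ML ^ (2 * (s - 1))) ^ s := by
    rw [Finset.prod_pow, Finset.prod_mul_distrib, Finset.prod_const, Finset.card_univ, hGN,
      Finset.prod_pow, Finset.prod_comm]
    have h1 : ∀ z : C, ∏ g : L ≃ₐ[ℚ] L, ‖Z (g ((z : L ≃ₐ[ℚ] L) (T : L)))‖ = ML := by
      intro z
      rw [hML, ← Equiv.prod_comp (Equiv.mulRight ((z : L ≃ₐ[ℚ] L)))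
        (fun g : L ≃ₐ[ℚ] L => ‖Z (g (T : L))‖)]
      rfl
    rw [Finset.prod_congr rfl (fun z _ => h1 z), Finset.prod_const, Finset.card_univ, hs]
    generalize (2 * (s : ℝ)) = a
    ring
  have hfin : Δ ^ s ≤ (((2 * s : ℝ) ^ 2) ^ N * ML ^ (2 * (s - 1))) ^ s := by
    rw [← hL, ← hR]
    exact Finset.prod_le_prod (fun g _ => Finset.prod_nonneg fun _ _ =>
      Finset.prod_nonneg fun _ _ => norm_nonneg _) (fun g _ => hloc g)
  have hfin2 : Δ ≤ ((2 * s : ℝ) ^ 2) ^ N * ML ^ (2 * (s - 1)) :=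
    le_of_pow_le_pow_left₀ hs0 (by positivity) hfin
  refine le_trans (le_of_eq ?_) hfin2
  unfold DD
  rw [Nat.cast_prod, hΔ, Finset.prod_comm]
  symm
  refine Finset.prod_bij (fun (u : C) _ => (u : L ≃ₐ[ℚ] L)) ?_ ?_ ?_ ?_
  · intro u hu
    rw [Finset.mem_erase] at hu
    unfold cen
    rw [Finset.mem_filter]
    refine ⟨Finset.mem_univ _, u.2, ?_⟩
    intro h
    exact hu.1 (Subtype.ext h)
  · intro a _ b _ h
    exact Subtype.ext h
  · intro b hb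
    unfold cen at hb
    rw [Finset.mem_filter] at hb
    refine ⟨⟨b, hb.2.1⟩, ?_, rfl⟩
    rw [Finset.mem_erase]
    refine ⟨?_, Finset.mem_univ _⟩
    intro h
    exact hb.2.2 (congrArg Subtype.val h)
  · intro u _
    rw [nm_eq ι]
    refine Finset.prod_congr rfl fun g _ => ?_
    have h3 : ((T - (u : L ≃ₐ[ℚ] L) • T : 𝓞 L) : L) = (T : L) - (u : L ≃ₐ[ℚ] L) (T : L) := rfl
    rw [h3, map_sub, map_sub]

end Pool.Agent.Q98.SG
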