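import Mathlib
import Pool.Agent.Q98.SG.C
import Pool.Agent.W628.AbSalem.Core2

/-!
# The bound from a prime with small ramification
-/

set_option autoImplicit false

open NumberField Polynomial

namespace Pool.Agent.Q98.SG

open Pool.Agent.W738.SAL Pool.Agent.W628.AbSalem

lemma dick_eval {z : ℂ} (hz : z ≠ 0) (n : ℕ) :
    aeval (z + z⁻¹) (dickson 1 (1 : ℤ) n) = z ^ n + (z ^ n)⁻¹ := by
  have h1 : aeval (z + z⁻¹) (dickson 1 (1 : ℤ) n) =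
      (dickson 1 (1 : ℂ) n).eval (z + z⁻¹) := by
    rw [aeval_def, ← eval_map, map_dickson]
    simp
  rw [h1, dickson_one_one_eval_add_inv z z⁻¹ (mul_inv_cancel₀ hz), inv_pow]

lemma dick_iter {z : ℂ} (hz : z ≠ 0) (a n : ℕ) :
    (fun x : ℂ => aeval x (dickson 1 (1 : ℤ) a))^[n] (z + z⁻¹) =
      z ^ (a ^ n) + (z ^ (a ^ n))⁻¹ := by
  induction n with
  | zero => simp
  | succ n ih =>
    rw [Function.iterate_succ_apply', ih]
    change aeval _ _ = _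
    rw [dick_eval (pow_ne_zero _ hz), ← pow_mul, ← pow_succ]

variable {L : Type} [Field L] [NumberField L]

lemma nonzero_dick (ι : L →ₐ[ℚ] ℂ) {t : L} (σ : L ≃ₐ[ℚ] L) {z : ℂ} (hz : z ≠ 0)
    (hzt : z + z⁻¹ = ι t) (hroot : ∀ n : ℕ, 0 < n → z ^ n ≠ 1) {a : ℕ} (ha : 1 < a) :
    aeval t (dickson 1 (1 : ℤ) a) - σ t ≠ 0 := by
  intro h0
  have h1 : aeval t (dickson 1 (1 : ℤ) a) = σ t := sub_eq_zero.mp h0
  have hDs : ∀ (s : L ≃ₐ[ℚ] L) (x : L), s (aeval x (dickson 1 (1 : ℤ) a)) =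
      aeval (s x) (dickson 1 (1 : ℤ) a) :=
    fun s x => (aeval_algHom_apply (s.toAlgHom.restrictScalars ℤ) x _).symm
  have hit : ∀ n : ℕ, (fun x : L => aeval x (dickson 1 (1 : ℤ) a))^[n] t = (σ ^ n) t := by
    intro n
    induction n with
    | zero => simp
    | succ n ih =>
      rw [Function.iterate_succ_apply', ih]
      change aeval _ _ = _
      rw [← hDs, h1, pow_succ, AlgEquiv.mul_apply]
  have hitc : ∀ (n : ℕ) (x : L), ι ((fun x : L => aeval x (dickson 1 (1 : ℤ) a))^[n] x) =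
      (fun x : ℂ => aeval x (dickson 1 (1 : ℤ) a))^[n] (ι x) := by
    intro n x
    induction n with
    | zero => simp
    | succ n ih =>
      rw [Function.iterate_succ_apply', Function.iterate_succ_apply', ← ih]
      exact (aeval_algHom_apply (ι.restrictScalars ℤ) _ _).symm
  have hn := orderOf_pos σ
  set n := orderOf σ with hndef
  have h2 := hit n
  rw [pow_orderOf_eq_one] at h2
  have h3 := congrArg ι h2
  rw [hitc, ← hzt, dick_iter hz] at h3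
  have h4 : ι ((1 : L ≃ₐ[ℚ] L) t) = z + z⁻¹ := by
    rw [hzt]
    rfl
  rw [h4] at h3
  have h5 : 1 < a ^ n := Nat.one_lt_pow (by omega) ha
  rcases pm_of_add_inv (pow_ne_zero _ hz) hz h3 with h6 | h6
  · apply hroot (a ^ n - 1) (by omega)
    have h7 : z ^ (a ^ n - 1) * z = 1 * z := by
      rw [← pow_succ, one_mul]
      have : a ^ n - 1 + 1 = a ^ n := by omega
      rw [this, h6]
    exact mul_right_cancel₀ hz h7
  · apply hroot (a ^ n + 1) (by omega)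
    rw [pow_succ, h6, inv_mul_cancel₀ hz]

variable [IsGalois ℚ L]

lemma norm_dick {z : ℂ} (hz : 1 ≤ ‖z‖) (a : ℕ) : ‖z ^ a + (z ^ a)⁻¹‖ ≤ 2 * ‖z‖ ^ a := by
  have h1 : 1 ≤ ‖z‖ ^ a := one_le_pow₀ hz
  have h2 : (‖z‖ ^ a)⁻¹ ≤ 1 := inv_le_one_of_one_le₀ h1
  calc ‖z ^ a + (z ^ a)⁻¹‖ ≤ ‖z ^ a‖ + ‖(z ^ a)⁻¹‖ := norm_add_le _ _
    _ = ‖z‖ ^ a + (‖z‖ ^ a)⁻¹ := by rw [norm_inv, norm_pow]
    _ ≤ 2 * ‖z‖ ^ a := by linarith

theorem good_bound {p d : ℕ} (hp : p.Prime) (hd : 0 < d)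
    (hrad : (Ideal.span {(p : 𝓞 L)}).radical ^ d ≤ Ideal.span {(p : 𝓞 L)})
    (hcen : ∀ σ τ : L ≃ₐ[ℚ] L, σ ^ d * τ = τ * σ ^ d)
    (ι : L →ₐ[ℚ] ℂ) (T : 𝓞 L) (Z : L → ℂ)
    (hZ : ∀ s : L ≃ₐ[ℚ] L, 1 ≤ ‖Z (s (T : L))‖ ∧
      Z (s (T : L)) + (Z (s (T : L)))⁻¹ = ι (s (T : L)))
    (hroot : ∀ n : ℕ, 0 < n → (Z (T : L)) ^ n ≠ 1) :
    (p : ℝ) ^ Module.finrank ℚ L ≤ (4 ^ Module.finrank ℚ L *
      (∏ g : L ≃ₐ[ℚ] L, ‖Z (g (T : L))‖) ^ (p ^ d + 1)) ^ d := by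
  classical
  have : Fact p.Prime := ⟨hp⟩
  set N := Module.finrank ℚ L with hN
  have hGN : Fintype.card (L ≃ₐ[ℚ] L) = N := by
    rw [hN, ← IsGalois.card_aut_eq_finrank ℚ L, Nat.card_eq_fintype_card]
  set ML := ∏ g : L ≃ₐ[ℚ] L, ‖Z (g (T : L))‖ with hML
  obtain ⟨σ, hσ⟩ := frob_central (L := L) hp hcen
  set a := p ^ d with ha
  set X : 𝓞 L := aeval T (dickson 1 (1 : ℤ) a) - σ • T with hX
  have hXr : X ∈ (Ideal.span {(p : 𝓞 L)}).radical := by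
    have h1 : aeval T (dickson 1 (1 : ℤ) a) - T ^ a ∈ Ideal.span {(p : 𝓞 L)} := by
      rw [← Ideal.Quotient.eq_zero_iff_mem, map_sub, ha, mk_dickson, map_pow, sub_self]
    have h2 : X = (aeval T (dickson 1 (1 : ℤ) a) - T ^ a) + (T ^ a - σ • T) := by
      rw [hX]; ring
    rw [h2]
    exact Ideal.add_mem _ (Ideal.le_radical h1) (hσ T)
  obtain ⟨y, hy⟩ := Ideal.mem_span_singleton.1 (hrad (Ideal.pow_mem_pow hXr d))
  have hdvd : p ^ N ∣ nm X ^ d := by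
    rw [← nm_pow, hy, nm_mul, nm_natCast]
    exact Dvd.intro _ rfl
  have hZ1 := hZ 1
  have hone : ((1 : L ≃ₐ[ℚ] L) (T : L)) = (T : L) := rfl
  rw [hone] at hZ1
  have hZ0 : ∀ g : L ≃ₐ[ℚ] L, Z (g (T : L)) ≠ 0 := by
    intro g h
    have := (hZ g).1
    rw [h, norm_zero] at this
    linarith
  have hcoe : (X : L) = aeval (T : L) (dickson 1 (1 : ℤ) a) - σ (T : L) := by
    have h1 : algebraMap (𝓞 L) L (aeval T (dickson 1 (1 : ℤ) a)) =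
        aeval (T : L) (dickson 1 (1 : ℤ) a) := (aeval_algebraMap_apply L T _).symm
    rw [← h1]
    rfl
  have hX0 : X ≠ 0 := by
    intro h
    have h1 : aeval (T : L) (dickson 1 (1 : ℤ) a) - σ (T : L) = 0 := by
      rw [← hcoe, h]
      rfl
    exact nonzero_dick ι σ (hZ0 1) hZ1.2 hroot (Nat.one_lt_pow hd.ne' hp.one_lt) h1
  have hle : (p : ℝ) ^ N ≤ (nm X : ℝ) ^ d := by
    exact_mod_cast Nat.le_of_dvd (pow_pos (Nat.pos_of_ne_zero (nm_ne_zero hX0)) d) hdvd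
  refine hle.trans (pow_le_pow_left₀ (Nat.cast_nonneg _) ?_ d)
  rw [nm_eq ι]
  have hb : ∀ g : L ≃ₐ[ℚ] L, ‖ι (g (X : L))‖ ≤
      4 * (‖Z (g (T : L))‖ ^ a * ‖Z ((g * σ) (T : L))‖) := by
    intro g
    have h1 : ι (g (X : L)) = ((Z (g (T : L))) ^ a + ((Z (g (T : L))) ^ a)⁻¹) -
        (Z ((g * σ) (T : L)) ^ 1 + (Z ((g * σ) (T : L)) ^ 1)⁻¹) := by
      rw [hcoe, map_sub, map_sub, pow_one, (hZ (g * σ)).2, ← dick_eval (hZ0 g), (hZ g).2]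
      congr 1
      have e1 : g (aeval (T : L) (dickson 1 (1 : ℤ) a)) =
          aeval (g (T : L)) (dickson 1 (1 : ℤ) a) :=
        (aeval_algHom_apply (g.toAlgHom.restrictScalars ℤ) _ _).symm
      rw [e1]
      exact (aeval_algHom_apply (ι.restrictScalars ℤ) _ _).symm
    have h2 := norm_dick (hZ g).1 a
    have h3 := norm_dick (hZ (g * σ)).1 1
    rw [pow_one] at h3
    have h4 : 1 ≤ ‖Z (g (T : L))‖ ^ a := one_le_pow₀ (hZ g).1
    have h5 := (hZ (g * σ)).1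
    rw [h1]
    refine (norm_sub_le _ _).trans ?_
    rw [pow_one] at h3 ⊢
    nlinarith
  calc ∏ g : L ≃ₐ[ℚ] L, ‖ι (g (X : L))‖ ≤
      ∏ g : L ≃ₐ[ℚ] L, 4 * (‖Z (g (T : L))‖ ^ a * ‖Z ((g * σ) (T : L))‖) :=
        Finset.prod_le_prod (fun _ _ => norm_nonneg _) (fun g _ => hb g)
    _ = 4 ^ N * ML ^ (a + 1) := by
      rw [Finset.prod_mul_distrib, Finset.prod_const, Finset.card_univ, hGN,
        Finset.prod_mul_distrib, Finset.prod_pow, pow_succ]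
      congr 2
      exact Equiv.prod_comp (Equiv.mulRight σ) (fun g : L ≃ₐ[ℚ] L => ‖Z (g (T : L))‖)

end Pool.Agent.Q98.SG
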