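import Mathlib
import Pool.Agent.Q98.SG.S
import Pool.Agent.W628.AbSalem.Gen

/-!
# Existence of a good prime, and the inequality
-/

set_option autoImplicit false

open NumberField Polynomial

namespace Pool.Agent.Q98.SG

open Pool.Agent.W738.SAL Pool.Agent.W628.AbSalem

lemma theta_sub {q x : ℕ} (hqx : q ≤ x) :
    Chebyshev.theta x = Chebyshev.theta q +
      ∑ p ∈ (Finset.Ioc q x).filter Nat.Prime, Real.log p := by
  unfold Chebyshev.theta
  rw [Nat.floor_natCast, Nat.floor_natCast, ← Finset.sum_union]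
  · congr 1
    rw [← Finset.filter_union]
    congr 1
    ext a
    simp only [Finset.mem_union, Finset.mem_Ioc]
    omega
  · rw [Finset.disjoint_left]
    intro a ha hb
    rw [Finset.mem_filter, Finset.mem_Ioc] at ha hb
    omega

lemma bad_primes {D N k : ℕ} (hD : D ≠ 0) (hN : 0 < N) {B : ℝ} (hB : 1 ≤ B)
    (hDB : (D : ℝ) ≤ B ^ N) {q x : ℕ}
    (hbad : ∀ p : ℕ, p.Prime → q < p → p ≤ x → p ^ N ∣ D ^ k) :
    ∑ p ∈ (Finset.Ioc q x).filter Nat.Prime, Real.log p ≤ k * Real.log B := by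
  set S := (Finset.Ioc q x).filter Nat.Prime with hS
  have hdvd : ∏ p ∈ S, p ^ N ∣ D ^ k := by
    apply Finset.prod_dvd_of_isRelPrime
    · intro a ha b hb hab
      rw [Finset.mem_coe, hS, Finset.mem_filter] at ha hb
      rw [Function.onFun]
      rw [← Nat.coprime_iff_isRelPrime]
      exact Nat.Coprime.pow _ _ ((Nat.coprime_primes ha.2 hb.2).2 hab)
    · intro p hp
      rw [hS, Finset.mem_filter, Finset.mem_Ioc] at hp
      exact hbad p hp.2 hp.1.1 hp.1.2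
  rw [Finset.prod_pow] at hdvd
  have h1 := Nat.le_of_dvd (pow_pos (Nat.pos_of_ne_zero hD) k) hdvd
  have h2 : ((∏ p ∈ S, (p : ℝ))) ^ N ≤ (B ^ k) ^ N := by
    have h1' : (((∏ p ∈ S, p) ^ N : ℕ) : ℝ) ≤ ((D ^ k : ℕ) : ℝ) := Nat.cast_le.2 h1
    push_cast at h1'
    calc ((∏ p ∈ S, (p : ℝ))) ^ N ≤ (D : ℝ) ^ k := h1'
      _ ≤ (B ^ N) ^ k := pow_le_pow_left₀ (Nat.cast_nonneg _) hDB k
      _ = (B ^ k) ^ N := by rw [← pow_mul, ← pow_mul, mul_comm]
  have h3 : (∏ p ∈ S, (p : ℝ)) ≤ B ^ k :=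
    le_of_pow_le_pow_left₀ hN.ne' (by positivity) h2
  have hpos : ∀ p ∈ S, (0 : ℝ) < p := by
    intro p hp
    rw [hS, Finset.mem_filter] at hp
    exact_mod_cast hp.2.pos
  rw [← Real.log_prod (fun p hp => (hpos p hp).ne'), ← Real.log_pow]
  exact Real.log_le_log (Finset.prod_pos hpos) h3

lemma theta_lower : ∃ x₀ : ℕ, ∀ x : ℕ, x₀ ≤ x → (x : ℝ) / 4 ≤ Chebyshev.theta x := by
  have h1 : (fun x : ℝ => Real.log x) =o[Filter.atTop] fun x : ℝ => x ^ (1 / 2 : ℝ) :=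
    isLittleO_log_rpow_atTop (by norm_num)
  have h2 := (h1.bound (show (0 : ℝ) < 1 / 32 by norm_num))
  have h3 : ∀ᶠ x : ℝ in Filter.atTop, (1 : ℝ) ≤ x := Filter.eventually_ge_atTop 1
  obtain ⟨a, ha⟩ := Filter.eventually_atTop.1 (h2.and h3)
  obtain ⟨x₀, hx₀⟩ := exists_nat_ge (max a 100)
  refine ⟨x₀, fun x hx => ?_⟩
  have hxr : (x₀ : ℝ) ≤ x := by exact_mod_cast hx
  have hxa : a ≤ (x : ℝ) := (le_max_left _ _).trans (hx₀.trans hxr)
  have hx100 : (100 : ℝ) ≤ x := (le_max_right _ _).trans (hx₀.trans hxr)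
  have h4 := (ha x hxa).1
  have h5 := (ha (x + 1) (by linarith)).1
  rw [Real.norm_of_nonneg (Real.log_nonneg (by linarith)),
    Real.norm_of_nonneg (by positivity), ← Real.sqrt_eq_rpow] at h4 h5
  have h6 := Chebyshev.theta_ge x
  set r := Real.sqrt x with hr
  have hr0 : 0 ≤ r := Real.sqrt_nonneg _
  have hr2 : r * r = x := Real.mul_self_sqrt (by linarith)
  have h7 : Real.sqrt ((x : ℝ) + 1) ≤ x := by
    rw [Real.sqrt_le_left (by linarith)]
    nlinarith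
  have h8 := Real.log_two_gt_d9
  have h9 : r * Real.log x ≤ 1 / 32 * x := by
    calc r * Real.log x ≤ r * (1 / 32 * r) := mul_le_mul_of_nonneg_left h4 hr0
      _ = 1 / 32 * x := by rw [← hr2]; ring
  nlinarith

variable {L : Type} [Field L] [NumberField L] [IsGalois ℚ L]

open Classical in
/-- the orbit of `t` -/
noncomputable def orb (t : L) : Finset L := Finset.univ.image (fun s : L ≃ₐ[ℚ] L => s t)

open Classical in
lemma orb_card (t : L) : (orb t).card ≤ (minpoly ℚ t).natDegree := by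
  have htq : IsIntegral ℚ t := Algebra.IsIntegral.isIntegral t
  have h1 : orb t ⊆ ((minpoly ℚ t).aroots L).toFinset := by
    intro y hy
    unfold orb at hy
    obtain ⟨s, -, rfl⟩ := Finset.mem_image.mp hy
    rw [Multiset.mem_toFinset, mem_aroots]
    refine ⟨minpoly.ne_zero htq, ?_⟩
    have h2 : aeval (s t) (minpoly ℚ t) = s (aeval t (minpoly ℚ t)) :=
      aeval_algHom_apply s.toAlgHom t _
    rw [h2, minpoly.aeval, map_zero]
  calc (orb t).card ≤ ((minpoly ℚ t).aroots L).toFinset.card := Finset.card_le_card h1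
    _ ≤ Multiset.card ((minpoly ℚ t).aroots L) := Multiset.toFinset_card_le _
    _ ≤ ((minpoly ℚ t).map (algebraMap ℚ L)).natDegree := card_roots' _
    _ ≤ (minpoly ℚ t).natDegree := natDegree_map_le

open Classical in
lemma sc_le (T : 𝓞 L) (hT : ∀ z ∈ cen L, z • T ≠ T) :
    sc L ≤ (minpoly ℚ (T : L)).natDegree := by
  refine le_trans ?_ (orb_card (T : L))
  unfold sc
  have h1 : Function.Injective (fun z : Subgroup.center (L ≃ₐ[ℚ] L) =>
      (⟨(z : L ≃ₐ[ℚ] L) (T : L), by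
        unfold orb
        exact Finset.mem_image_of_mem _ (Finset.mem_univ _)⟩ : orb (T : L))) := by
    intro z z' h
    have h2 : (z : L ≃ₐ[ℚ] L) (T : L) = (z' : L ≃ₐ[ℚ] L) (T : L) := congrArg Subtype.val h
    by_contra hne
    refine hT ((z'⁻¹ * z : Subgroup.center (L ≃ₐ[ℚ] L)) : L ≃ₐ[ℚ] L) ?_ ?_
    · unfold cen
      rw [Finset.mem_filter]
      refine ⟨Finset.mem_univ _, Subtype.mem _, ?_⟩
      intro h3
      apply hne
      have h4 : (z'⁻¹ * z : Subgroup.center (L ≃ₐ[ℚ] L)) = 1 := Subtype.ext h3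
      exact (inv_mul_eq_one.1 h4).symm
    · apply RingOfIntegers.ext
      change ((z'⁻¹ * z : Subgroup.center (L ≃ₐ[ℚ] L)) : L ≃ₐ[ℚ] L) (T : L) = (T : L)
      push_cast
      rw [AlgEquiv.mul_apply, h2]
      exact AlgEquiv.symm_apply_apply (z' : L ≃ₐ[ℚ] L) (T : L)
  have h2 := Nat.card_le_card_of_injective _ h1
  rwa [Nat.card_eq_fintype_card (α := orb (T : L)), Fintype.card_coe] at h2

/-- the main inequality -/
theorem main_d (d : ℕ) (hd : 0 < d) : ∃ K : ℝ, 0 < K ∧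
    ∀ (L : Type) [Field L] [NumberField L] [IsGalois ℚ L],
    (∀ σ τ : L ≃ₐ[ℚ] L, σ ^ d * τ = τ * σ ^ d) →
    ∀ (ι : L →ₐ[ℚ] ℂ) (T : 𝓞 L) (Z : L → ℂ),
    (∀ s : L ≃ₐ[ℚ] L, 1 ≤ ‖Z (s (T : L))‖ ∧
      Z (s (T : L)) + (Z (s (T : L)))⁻¹ = ι (s (T : L))) →
    (∀ n : ℕ, 0 < n → (Z (T : L)) ^ n ≠ 1) →
    (∀ z ∈ cen L, z • T ≠ T) →
    ∀ M : ℝ, (∀ S : Finset L, (∀ y ∈ S, ∃ s : L ≃ₐ[ℚ] L, y = s (T : L)) →
      ∏ y ∈ S, ‖Z y‖ ≤ M) →
    ((minpoly ℚ (T : L)).natDegree : ℝ) ≤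
      K * (1 + Real.log (minpoly ℚ (T : L)).natDegree + Real.log M) ^ d * Real.log M := by
  classical
  obtain ⟨x₀, hx₀⟩ := theta_lower
  set q : ℕ := 4 ^ (d + 1) with hq
  set C : ℝ := 8 * q + 16 * d + x₀ + 2 with hC
  have hC0 : 0 < C := by positivity
  refine ⟨2 * d * C ^ d, by positivity, ?_⟩
  intro L _ _ _ hcen ι T Z hZ hroot hT M hM
  set t : L := (T : L) with ht
  set n := (minpoly ℚ t).natDegree with hn
  have htq : IsIntegral ℚ t := Algebra.IsIntegral.isIntegral t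
  have hn1 : 1 ≤ n := minpoly.natDegree_pos htq
  set N := Module.finrank ℚ L with hN
  have hGN : Fintype.card (L ≃ₐ[ℚ] L) = N := by
    rw [hN, ← IsGalois.card_aut_eq_finrank ℚ L, Nat.card_eq_fintype_card]
  set m := (Finset.univ.filter (fun s : L ≃ₐ[ℚ] L => s t = t)).card with hm
  have hcard : m * n = N := by rw [← hGN]; exact stab_card t
  have hN0 : 0 < N := by rw [← hGN]; exact Fintype.card_pos
  have hm0 : m ≠ 0 := by
    rintro h
    rw [h, zero_mul] at hcard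
    omega
  set P := ∏ y ∈ Finset.univ.image (fun s : L ≃ₐ[ℚ] L => s t), ‖Z y‖ with hP
  have hPM : P ≤ M := hM _ (by
    intro y hy
    obtain ⟨s, -, rfl⟩ := Finset.mem_image.mp hy
    exact ⟨s, rfl⟩)
  have hP1 : 1 ≤ P := by
    refine (Wt_prod _ (fun y => ‖Z y‖) ?_).1
    intro y hy
    obtain ⟨s, -, rfl⟩ := Finset.mem_image.mp hy
    exact (hZ s).1
  have hML : ∏ g : L ≃ₐ[ℚ] L, ‖Z (g t)‖ = P ^ m := prod_orbit t (fun y => ‖Z y‖)
  have hM1 : 1 ≤ M := hP1.trans hPM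
  have hlogM : 0 ≤ Real.log M := Real.log_nonneg hM1
  have hlogn : 0 ≤ Real.log n := Real.log_nonneg (by exact_mod_cast hn1)
  set Y := 1 + Real.log n + Real.log M with hY
  have hY1 : 1 ≤ Y := by linarith
  have hn0 : (0 : ℝ) < n := by exact_mod_cast hn1
  -- the size of the central product
  have hDB : (DD T : ℝ) ≤ ((2 * n * M) ^ 2 : ℝ) ^ N := by
    have h1 := DD_le ι T Z hZ
    have h2 := sc_le T hT
    rw [← ht] at h1
    rw [hML, ← hN] at h1
    refine h1.trans ?_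
    have h3 : ((2 * sc L : ℝ) ^ 2) ^ N ≤ ((2 * n : ℝ) ^ 2) ^ N := by
      have h4 : (sc L : ℝ) ≤ n := by exact_mod_cast h2
      gcongr
    have h5 : (P ^ m) ^ (2 * (sc L - 1)) ≤ (M ^ 2) ^ N := by
      calc (P ^ m) ^ (2 * (sc L - 1)) ≤ (P ^ m) ^ (2 * n) := by
            apply pow_le_pow_right₀ (one_le_pow₀ hP1)
            have : sc L ≤ n := h2
            omega
        _ = (P ^ 2) ^ N := by
            rw [← pow_mul, ← pow_mul, ← hcard]
            congr 1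
            ring
        _ ≤ (M ^ 2) ^ N := by gcongr
    calc ((2 * sc L : ℝ) ^ 2) ^ N * (P ^ m) ^ (2 * (sc L - 1)) ≤
        ((2 * n : ℝ) ^ 2) ^ N * (M ^ 2) ^ N := by
          apply mul_le_mul h3 h5 (by positivity) (by positivity)
      _ = ((2 * n * M) ^ 2 : ℝ) ^ N := by rw [← mul_pow, ← mul_pow]
  -- the choice of the prime
  obtain ⟨x, hx1, hx2⟩ : ∃ x : ℕ, 8 * q + 16 * d * Y + x₀ < x ∧
      (x : ℝ) ≤ 8 * q + 16 * d * Y + x₀ + 1 := by
    have h0 : 0 ≤ 8 * q + 16 * d * Y + x₀ := by positivity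
    refine ⟨⌊8 * q + 16 * d * Y + x₀⌋₊ + 1, ?_, ?_⟩
    · exact_mod_cast Nat.lt_floor_add_one _
    · push_cast
      linarith [Nat.floor_le h0]
  have hdY : 0 ≤ 16 * d * Y := by positivity
  have hxx₀ : x₀ ≤ x := by
    have h1 : (0 : ℝ) ≤ 8 * q := by positivity
    have h2 : (x₀ : ℝ) < x := by linarith
    exact_mod_cast h2.le
  have hqx : q ≤ x := by
    have h1 : (0 : ℝ) ≤ x₀ := Nat.cast_nonneg _
    have h3 : (0 : ℝ) ≤ q := Nat.cast_nonneg _
    have h2 : (q : ℝ) < x := by linarith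
    exact_mod_cast h2.le
  have hxC : (x : ℝ) ≤ C * Y := by
    have h1 : (0 : ℝ) ≤ 8 * q + x₀ + 1 := by positivity
    calc (x : ℝ) ≤ 8 * q + 16 * d * Y + x₀ + 1 := hx2
      _ ≤ (8 * q + x₀ + 1) * Y + 16 * d * Y := by nlinarith
      _ ≤ C * Y := by rw [hC]; nlinarith
  obtain ⟨p, hp, hqp, hpx, hgood⟩ : ∃ p : ℕ, p.Prime ∧ q < p ∧ p ≤ x ∧
      (Ideal.span {(p : 𝓞 L)}).radical ^ d ≤ Ideal.span {(p : 𝓞 L)} := by
    by_contra hcon
    push Not at hcon
    have hbad : ∀ p : ℕ, p.Prime → q < p → p ≤ x → p ^ N ∣ DD T ^ (2 * d) := by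
      intro p hp hqp hpx
      have hdp : d < p := by
        have h1 : d < 4 ^ (d + 1) := by
          have := Nat.lt_pow_self (n := d + 1) (a := 4) (by norm_num)
          omega
        omega
      rcases bad_dvd hp hd hdp hcen hT with h | h
      · exact absurd h (hcon p hp hqp hpx)
      · exact h
    have hD0 : DD T ≠ 0 := by
      unfold DD
      rw [Finset.prod_ne_zero_iff]
      intro z hz
      apply nm_ne_zero
      intro h
      exact hT z hz (sub_eq_zero.1 h).symm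
    have hB1 : (1 : ℝ) ≤ (2 * n * M) ^ 2 := by
      have h1 : (1 : ℝ) ≤ n := by exact_mod_cast hn1
      have : (1 : ℝ) ≤ 2 * n * M := by nlinarith
      exact one_le_pow₀ this
    have h1 := bad_primes hD0 hN0 hB1 hDB hbad
    have h2 := theta_sub hqx
    have h3 := hx₀ x hxx₀
    have h4 := Chebyshev.theta_le_log4_mul_x (x := (q : ℝ)) (Nat.cast_nonneg _)
    have h5 : Real.log 4 ≤ 2 := by
      have h6 : (4 : ℝ) = 2 ^ 2 := by norm_num
      rw [h6, Real.log_pow]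
      have := Real.log_two_lt_d9
      push_cast
      linarith
    have h7 : Real.log ((2 * n * M) ^ 2) = 2 * (Real.log 2 + Real.log n + Real.log M) := by
      rw [Real.log_pow, Real.log_mul (by positivity) (by linarith),
        Real.log_mul (by norm_num) (by positivity)]
      push_cast
      ring
    rw [h7] at h1
    have h8 := Real.log_two_lt_d9
    have h9 : ((2 * d : ℕ) : ℝ) * (2 * (Real.log 2 + Real.log n + Real.log M)) ≤ 4 * d * Y := by
      push_cast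
      have : Real.log 2 + Real.log n + Real.log M ≤ Y := by rw [hY]; linarith
      have hd0 : (0 : ℝ) ≤ d := Nat.cast_nonneg _
      nlinarith
    have h10 : Real.log 4 * q ≤ 2 * q := by
      have : (0 : ℝ) ≤ q := Nat.cast_nonneg _
      nlinarith
    have h11 : (0 : ℝ) ≤ x₀ := Nat.cast_nonneg _
    linarith
  -- the bound
  have hb := good_bound hp hd hgood hcen ι T Z hZ hroot
  rw [← ht, hML, ← hN] at hb
  have hq4 : (4 : ℝ) ^ (d + 1) ≤ p := by exact_mod_cast hqp.le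
  have h1 : ((4 : ℝ) ^ (d + 1)) ^ N ≤ (4 ^ N * (P ^ m) ^ (p ^ d + 1)) ^ d :=
    (pow_le_pow_left₀ (by positivity) hq4 N).trans hb
  have h2 : ((4 : ℝ) ^ n) ^ m ≤ (P ^ ((p ^ d + 1) * d)) ^ m := by
    have h3 : ((4 : ℝ) ^ (d + 1)) ^ N = (4 ^ N) ^ d * (4 ^ n) ^ m := by
      rw [← hcard]
      ring
    have h4 : (4 ^ N * (P ^ m) ^ (p ^ d + 1)) ^ d =
        (4 ^ N) ^ d * (P ^ ((p ^ d + 1) * d)) ^ m := by
      rw [mul_pow]
      congr 1
      rw [← pow_mul, ← pow_mul, ← pow_mul]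
      congr 1
      ring
    rw [h3, h4] at h1
    exact le_of_mul_le_mul_left h1 (by positivity)
  have h3 : (4 : ℝ) ^ n ≤ P ^ ((p ^ d + 1) * d) :=
    le_of_pow_le_pow_left₀ hm0 (by positivity) h2
  have h4 : (4 : ℝ) ^ n ≤ M ^ ((p ^ d + 1) * d) :=
    h3.trans (pow_le_pow_left₀ (by linarith) hPM _)
  have h5 := Real.log_le_log (by positivity) h4
  rw [Real.log_pow, Real.log_pow] at h5
  have h6 : (1 : ℝ) ≤ Real.log 4 := by
    have h6 : (4 : ℝ) = 2 ^ 2 := by norm_num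
    rw [h6, Real.log_pow]
    have := Real.log_two_gt_d9
    push_cast
    linarith
  have h7 : (n : ℝ) ≤ (((p ^ d + 1) * d : ℕ) : ℝ) * Real.log M := by nlinarith
  refine h7.trans ?_
  apply mul_le_mul_of_nonneg_right _ hlogM
  push_cast
  have h8 : (p : ℝ) ≤ C * Y := by
    have : (p : ℝ) ≤ x := by exact_mod_cast hpx
    linarith
  have h9 : (p : ℝ) ^ d ≤ (C * Y) ^ d := pow_le_pow_left₀ (Nat.cast_nonneg _) h8 d
  have h10 : (1 : ℝ) ≤ (p : ℝ) ^ d := one_le_pow₀ (by exact_mod_cast hp.one_le)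
  have hd0 : (0 : ℝ) ≤ d := Nat.cast_nonneg _
  calc ((p : ℝ) ^ d + 1) * d ≤ (2 * (C * Y) ^ d) * d := by
        apply mul_le_mul_of_nonneg_right _ hd0
        linarith
    _ = 2 * d * C ^ d * Y ^ d := by rw [mul_pow]; ring

end Pool.Agent.Q98.SG
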