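import Mathlib
import Pool.Agent.Q98.SG.G
import Pool.Agent.W628.AbSalem.Conj
import Pool.Agent.W628.AbSalem.Conj2

/-!
# Analysis, reversal of polynomials, and the reduction to a normal closure
-/

set_option autoImplicit false

open NumberField Polynomial

namespace Pool.Agent.Q98.SG

lemma final_ineq (d : ℕ) {K : ℝ} (hK : 0 < K) : ∃ c : ℝ, 0 < c ∧ ∀ n : ℕ, 1 ≤ n → ∀ μ : ℝ,
    0 ≤ μ → (n : ℝ) ≤ K * (1 + Real.log n + μ) ^ d * μ →
    c * (n : ℝ) ^ ((1 : ℝ) / (d + 1)) ≤ μ := by
  have hD : (0 : ℝ) < K * (d + 3) ^ d := by positivity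
  refine ⟨1 / (1 + K * (d + 3) ^ d), by positivity, ?_⟩
  intro n hn μ hμ h
  set u : ℝ := (n : ℝ) ^ ((1 : ℝ) / (d + 1)) with hu
  have hn1 : (1 : ℝ) ≤ n := by exact_mod_cast hn
  have hd1 : (0 : ℝ) < (d : ℝ) + 1 := by positivity
  have hu1 : 1 ≤ u := Real.one_le_rpow hn1 (by positivity)
  have hun : u ^ (d + 1) = n := by
    rw [hu, ← Real.rpow_natCast, ← Real.rpow_mul (by linarith)]
    push_cast
    rw [one_div, inv_mul_cancel₀ hd1.ne', Real.rpow_one]
  have hlog : Real.log n = (d + 1) * Real.log u := by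
    rw [← hun, Real.log_pow]
    push_cast
    ring
  have hlogu : Real.log u ≤ u := by
    have := Real.log_le_sub_one_of_pos (by linarith : 0 < u)
    linarith
  rw [div_mul_eq_mul_div, one_mul, div_le_iff₀ (by positivity)]
  rcases le_or_gt u μ with h1 | h1
  · nlinarith
  have h2 : 1 + Real.log n + μ ≤ (d + 3) * u := by
    rw [hlog]
    have h3 : ((d : ℝ) + 1) * Real.log u ≤ (d + 1) * u := mul_le_mul_of_nonneg_left hlogu hd1.le
    linarith
  have hlog0 : 0 ≤ Real.log n := Real.log_nonneg hn1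
  have h3 : (n : ℝ) ≤ K * ((d + 3) * u) ^ d * μ := by
    refine h.trans ?_
    gcongr
  rw [← hun, mul_pow, pow_succ] at h3
  have hup : 0 < u ^ d := by positivity
  have h4 : u ^ d * u ≤ u ^ d * (K * (d + 3) ^ d * μ) := by
    calc u ^ d * u ≤ K * ((d + 3) ^ d * u ^ d) * μ := h3
      _ = u ^ d * (K * (d + 3) ^ d * μ) := by ring
  have h5 : u ≤ K * (d + 3) ^ d * μ := le_of_mul_le_mul_left h4 hup
  linarith

lemma mahler_rev_lin (a : ℂ) : (X - C a : ℂ[X]).reverse.mahlerMeasure =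
    (X - C a : ℂ[X]).mahlerMeasure := by
  rw [mahlerMeasure_X_sub_C]
  by_cases ha : a = 0
  · rw [ha, C_0, sub_zero]
    have h1 : (X : ℂ[X]).reverse = 1 := by
      have := reverse_mul_X (1 : ℂ[X])
      rw [one_mul] at this
      rw [this, ← C_1, reverse_C]
    rw [h1, mahlerMeasure_one]
    simp
  · have h1 : (X - C a : ℂ[X]).reverse = C (-a) * X + C 1 := by
      have h2 : (X - C a : ℂ[X]) = (1 : ℂ[X]) * X + C (-a) := by rw [one_mul, C_neg]; ring
      rw [h2, reverse_add_C]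
      have h3 : (1 : ℂ[X]).reverse = 1 := by rw [← C_1, reverse_C]
      rw [reverse_mul_X, h3, one_mul, natDegree_X, pow_one, C_1]
      ring
    rw [h1, mahlerMeasure_C_mul_X_add_C (neg_ne_zero.2 ha), norm_neg, norm_one, max_comm]

lemma mahler_rev (p : ℂ[X]) : p.reverse.mahlerMeasure = p.mahlerMeasure := by
  have h1 : ∀ s : Multiset ℂ, ((s.map (fun a => X - C a)).prod).reverse.mahlerMeasure =
      ((s.map (fun a => X - C a)).prod : ℂ[X]).mahlerMeasure := by
    intro s
    induction s using Multiset.induction_on with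
    | empty =>
      rw [Multiset.map_zero, Multiset.prod_zero]
      have h3 : (1 : ℂ[X]).reverse = 1 := by rw [← C_1, reverse_C]
      rw [h3]
    | cons a s ih =>
      rw [Multiset.map_cons, Multiset.prod_cons, reverse_mul_of_domain, mahlerMeasure_mul,
        mahlerMeasure_mul, ih, mahler_rev_lin]
  have h2 := (IsAlgClosed.splits p).eq_prod_roots
  rw [h2, reverse_mul_of_domain, mahlerMeasure_mul, mahlerMeasure_mul, reverse_C, h1]

/-- a reduction to a Galois field generated by the conjugates -/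
theorem reduction {d : ℕ} (L : IntermediateField ℚ ℂ) [FiniteDimensional ℚ L] [IsGalois ℚ L]
    (hcen : ∀ σ τ : L ≃ₐ[ℚ] L, σ ^ d * τ = τ * σ ^ d) {x : ℂ} (hx : x ∈ L) :
    ∃ E : IntermediateField ℚ ℂ, FiniteDimensional ℚ E ∧ IsGalois ℚ E ∧
      (∀ σ τ : E ≃ₐ[ℚ] E, σ ^ d * τ = τ * σ ^ d) ∧ ∃ hxE : x ∈ E,
      ∀ z : E ≃ₐ[ℚ] E, (∀ g : E ≃ₐ[ℚ] E, z * g = g * z) → z ⟨x, hxE⟩ = ⟨x, hxE⟩ → z = 1 := by
  classical
  have hLnor : Normal ℚ L := inferInstance
  set t : L := ⟨x, hx⟩ with ht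
  have hinj : Function.Injective (algebraMap L ℂ) := (algebraMap L ℂ).injective
  have htq : IsIntegral ℚ t := Algebra.IsIntegral.isIntegral t
  have hmt : minpoly ℚ t = minpoly ℚ x := (minpoly.algebraMap_eq hinj t).symm
  set p := minpoly ℚ x with hp
  have hxq : IsIntegral ℚ x := by
    have := htq.map (IsScalarTower.toAlgHom ℚ L ℂ)
    exact this
  have hp0 : p ≠ 0 := minpoly.ne_zero hxq
  set E := IntermediateField.adjoin ℚ (p.rootSet ℂ) with hE
  have hsplit : IsSplittingField ℚ E p :=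
    IntermediateField.adjoin_rootSet_isSplittingField (IsAlgClosed.splits _)
  have hfd : FiniteDimensional ℚ E := IsSplittingField.finiteDimensional E p
  have hnor : Normal ℚ E := Normal.of_isSplittingField p
  have hgal : IsGalois ℚ E := ⟨⟩
  have hEL : E ≤ L := by
    rw [hE, IntermediateField.adjoin_le_iff]
    intro y hy
    rw [mem_rootSet] at hy
    have h1 : ((minpoly ℚ t).map (algebraMap ℚ L)).Splits := hLnor.splits t
    rw [hmt] at h1
    have h3 := h1.image_rootSet (L.val)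
    have h4 : y ∈ p.rootSet ℂ := by rw [mem_rootSet]; exact hy
    rw [← h3] at h4
    obtain ⟨w, -, rfl⟩ := h4
    exact w.2
  let _ : Algebra E L := (IntermediateField.inclusion hEL).toAlgebra
  have _ : IsScalarTower ℚ E L := IsScalarTower.of_algebraMap_eq (fun _ => rfl)
  have hsurj : Function.Surjective (AlgEquiv.restrictNormalHom E : (L ≃ₐ[ℚ] L) →* (E ≃ₐ[ℚ] E)) :=
    AlgEquiv.restrictNormalHom_surjective L
  refine ⟨E, hfd, hgal, ?_, ?_⟩
  · intro σ τ
    obtain ⟨σ', rfl⟩ := hsurj σ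
    obtain ⟨τ', rfl⟩ := hsurj τ
    rw [← map_pow, ← map_mul, ← map_mul, hcen]
  · have hxE : x ∈ E := by
      apply IntermediateField.subset_adjoin
      rw [mem_rootSet]
      exact ⟨hp0, minpoly.aeval ℚ x⟩
    refine ⟨hxE, ?_⟩
    intro z hz hzx
    have key : ∀ y (hy : y ∈ E), z ⟨y, hy⟩ = ⟨y, hy⟩ := by
      intro y hy
      have hy' : y ∈ IntermediateField.adjoin ℚ (p.rootSet ℂ) := hy
      induction hy' using IntermediateField.adjoin_induction with
      | mem y hyp =>
        rw [mem_rootSet] at hyp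
        have hinjE : Function.Injective (algebraMap E ℂ) := (algebraMap E ℂ).injective
        have h1 : minpoly ℚ (⟨y, hy⟩ : E) = minpoly ℚ y :=
          (minpoly.algebraMap_eq hinjE (⟨y, hy⟩ : E)).symm
        have h2 : minpoly ℚ (⟨x, hxE⟩ : E) = minpoly ℚ x :=
          (minpoly.algebraMap_eq hinjE (⟨x, hxE⟩ : E)).symm
        have h3 : p = minpoly ℚ y :=
          minpoly.eq_of_irreducible_of_monic (minpoly.irreducible hxq) hyp.2 (minpoly.monic hxq)
        have hconj : IsConjRoot ℚ (⟨y, hy⟩ : E) (⟨x, hxE⟩ : E) := by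
          unfold IsConjRoot
          rw [h1, h2, ← h3]
        obtain ⟨g, hg⟩ := hconj.exists_algEquiv
        rw [← hg, ← AlgEquiv.mul_apply, hz, AlgEquiv.mul_apply, hzx]
      | algebraMap y => exact z.commutes y
      | add a b ha hb iha ihb =>
        have h1 := iha ha
        have h2 := ihb hb
        have h3 : (⟨a + b, hy⟩ : E) = ⟨a, ha⟩ + ⟨b, hb⟩ := rfl
        rw [h3, map_add, h1, h2]
      | inv a ha iha =>
        have h1 := iha ha
        have h3 : (⟨a⁻¹, hy⟩ : E) = (⟨a, ha⟩)⁻¹ := rfl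
        rw [h3, map_inv₀, h1]
      | mul a b ha hb iha ihb =>
        have h1 := iha ha
        have h2 := ihb hb
        have h3 : (⟨a * b, hy⟩ : E) = ⟨a, ha⟩ * ⟨b, hb⟩ := rfl
        rw [h3, map_mul, h1, h2]
    ext y
    exact congrArg Subtype.val (key y.1 y.2)

end Pool.Agent.Q98.SG
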