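import Mathlib
import Pool.Agent.Q98.SG.H

/-!
# Lehmer's inequality for `α` with `α + 1/α` in a field of finite exponent modulo the centre
-/

set_option autoImplicit false

namespace Pool.Agent.Q98.SG

open Polynomial NumberField Pool.Agent.W628.AbSalem

lemma unit_case {d : ℕ} {c : ℝ} (hc : ∀ n : ℕ, 1 ≤ n → ∀ μ : ℝ, 0 ≤ μ →
      (n : ℝ) ≤ (main_d (d + 1) d.succ_pos).choose * (1 + Real.log n + μ) ^ (d + 1) * μ →
      c * (n : ℝ) ^ ((1 : ℝ) / ((d + 1 : ℕ) + 1)) ≤ μ)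
    (L : IntermediateField ℚ ℂ) [FiniteDimensional ℚ L] [IsGalois ℚ L]
    (hcen : ∀ σ τ : L ≃ₐ[ℚ] L, σ ^ (d + 1) * τ = τ * σ ^ (d + 1)) {f : ℤ[X]} (hf0 : f ≠ 0) {α : ℂ}
    (hα0 : α ≠ 0) (hα : aeval α f = 0) (hinv : aeval α⁻¹ f = 0) (hi1 : IsIntegral ℤ α)
    (hi2 : IsIntegral ℤ α⁻¹) (hrt : ∀ k : ℕ, 0 < k → α ^ k ≠ 1) (hmem : α + α⁻¹ ∈ L) :
    c * ((minpoly ℚ (α + α⁻¹)).natDegree : ℝ) ^ ((1 : ℝ) / ((d + 1 : ℕ) + 1)) ≤
      Real.log (f.map (Int.castRingHom ℂ)).mahlerMeasure := by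
  classical
  obtain ⟨E, hfd, hgal, hcenE, hmemE, hfree⟩ := reduction L hcen hmem
  haveI : NumberField E := ⟨⟩
  set p := f.map (Int.castRingHom ℂ) with hp
  have hinjZ : Function.Injective (Int.castRingHom ℂ) := RingHom.injective_int _
  have hp0 : p ≠ 0 := (Polynomial.map_ne_zero_iff hinjZ).mpr hf0
  have hlc : p.leadingCoeff = ((f.leadingCoeff : ℤ) : ℂ) :=
    leadingCoeff_map_of_injective hinjZ f
  have hlf0 : f.leadingCoeff ≠ 0 := leadingCoeff_ne_zero.mpr hf0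
  have hlc1 : 1 ≤ ‖p.leadingCoeff‖ := by
    rw [hlc, Complex.norm_intCast]
    exact_mod_cast Int.one_le_abs hlf0
  have hinj : Function.Injective (algebraMap E ℂ) := (algebraMap E ℂ).injective
  have hτC : IsIntegral ℤ (α + α⁻¹) := hi1.add hi2
  set t : E := ⟨α + α⁻¹, hmemE⟩ with ht
  have htint : IsIntegral ℤ t := (isIntegral_algebraMap_iff hinj).mp hτC
  have hmt : minpoly ℚ t = minpoly ℚ (α + α⁻¹) := (minpoly.algebraMap_eq hinj t).symm
  have hexZ : ∀ y : E, ∃ z : ℂ, (∃ s : E ≃ₐ[ℚ] E, y = s t) →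
      (1 ≤ ‖z‖ ∧ z + z⁻¹ = (y : ℂ) ∧ aeval z f = 0) := by
    intro y
    by_cases hy : ∃ s : E ≃ₐ[ℚ] E, y = s t
    · obtain ⟨s, rfl⟩ := hy
      have h1 : minpoly ℚ ((s t : E) : ℂ) = minpoly ℚ (α + α⁻¹) := by
        rw [← hmt, ← minpoly.algEquiv_eq s t]
        exact minpoly.algebraMap_eq hinj (s t)
      obtain ⟨z, hz1, hz0, hz2, hz3⟩ := conj_lift2 hi1 hα0 h1
      by_cases hn : 1 ≤ ‖z‖
      · exact ⟨z, fun _ => ⟨hn, hz1, hz2 f hα⟩⟩
      · refine ⟨z⁻¹, fun _ => ⟨?_, ?_, hz3 f hinv⟩⟩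
        · push Not at hn
          rw [norm_inv]
          exact (one_le_inv₀ (norm_pos_iff.mpr hz0)).mpr hn.le
        · rw [inv_inv, add_comm]
          exact hz1
    · exact ⟨0, fun h => absurd h hy⟩
  choose Z hZ using hexZ
  have hZs : ∀ s : E ≃ₐ[ℚ] E, 1 ≤ ‖Z (s t)‖ ∧ Z (s t) + (Z (s t))⁻¹ = E.val (s t) :=
    fun s => ⟨(hZ (s t) ⟨s, rfl⟩).1, (hZ (s t) ⟨s, rfl⟩).2.1⟩
  have hZt : 1 ≤ ‖Z t‖ ∧ Z t + (Z t)⁻¹ = α + α⁻¹ ∧ aeval (Z t) f = 0 := hZ t ⟨1, rfl⟩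
  have hZt0 : Z t ≠ 0 := by
    intro h
    have := hZt.1
    rw [h, norm_zero] at this
    linarith
  have hpm := pm_of_add_inv hZt0 hα0 hZt.2.1
  have hroot : ∀ n : ℕ, 0 < n → (Z t) ^ n ≠ 1 := by
    intro n hn h
    rcases hpm with h1 | h1
    · exact hrt n hn (by rw [← h1]; exact h)
    · rw [h1, inv_pow, inv_eq_one] at h
      exact hrt n hn h
  set M := p.mahlerMeasure with hMdef
  have hM : ∀ S : Finset E, (∀ y ∈ S, ∃ s : E ≃ₐ[ℚ] E, y = s t) → ∏ y ∈ S, ‖Z y‖ ≤ M := by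
    intro S hS
    have h1 : ∏ z ∈ S.image Z, ‖z‖ = ∏ y ∈ S, ‖Z y‖ := by
      apply Finset.prod_image
      intro a ha b hb hab
      apply Subtype.ext
      rw [← (hZ a (hS a ha)).2.1, ← (hZ b (hS b hb)).2.1, hab]
    rw [← h1]
    apply prod_le_mahler hlc1 hp0
    intro z hz
    obtain ⟨y, hy, rfl⟩ := Finset.mem_image.mp hz
    have h2 := (hZ y (hS y hy)).2.2
    rw [IsRoot.def, hp, eval_map]
    exact h2
  have hM1 : 1 ≤ M := by
    have := hM ∅ (by simp)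
    simpa using this
  set T : 𝓞 E := ⟨t, htint⟩ with hT
  have hTt : (T : E) = t := rfl
  have hfreeT : ∀ z ∈ cen E, z • T ≠ T := by
    intro z hz h
    unfold cen at hz
    rw [Finset.mem_filter, Subgroup.mem_center_iff] at hz
    apply hz.2.2
    apply hfree z (fun g => (hz.2.1 g).symm)
    exact congrArg (fun x : 𝓞 E => (x : E)) h
  have hmain := (main_d (d + 1) d.succ_pos).choose_spec.2 E hcenE E.val T Z hZs hroot hfreeT M hM
  rw [hTt, hmt] at hmain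
  refine hc _ ?_ _ (Real.log_nonneg hM1) hmain
  exact minpoly.natDegree_pos (hτC.tower_top (A := ℚ))

theorem lehmer_trace : ∀ d : ℕ, 0 < d → ∃ c : ℝ, 0 < c ∧
    ∀ (L : IntermediateField ℚ ℂ), FiniteDimensional ℚ L → IsGalois ℚ L →
    (∀ σ τ : L ≃ₐ[ℚ] L, σ ^ d * τ = τ * σ ^ d) →
    ∀ f : ℤ[X], f ≠ 0 → ∀ α : ℂ, α ≠ 0 → (∀ k : ℕ, 0 < k → α ^ k ≠ 1) → aeval α f = 0 →
    α + α⁻¹ ∈ L →
    (2 ≤ (f.map (Int.castRingHom ℂ)).mahlerMeasure ∨
      c * ((minpoly ℚ (α + α⁻¹)).natDegree : ℝ) ^ ((1 : ℝ) / (d + 1)) ≤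
        Real.log (f.map (Int.castRingHom ℂ)).mahlerMeasure) ∧
    (IsIntegral ℤ α → IsIntegral ℤ α⁻¹ →
      c * ((minpoly ℚ (α + α⁻¹)).natDegree : ℝ) ^ ((1 : ℝ) / (d + 1)) ≤
        Real.log (f.map (Int.castRingHom ℂ)).mahlerMeasure) := by
  classical
  rintro d hd
  obtain ⟨e, rfl⟩ : ∃ e, d = e + 1 := ⟨d - 1, by omega⟩
  obtain ⟨c, hc0, hc⟩ := final_ineq (e + 1) (main_d (e + 1) e.succ_pos).choose_spec.1
  refine ⟨c / 2, by positivity, ?_⟩
  intro L hfd hgal hcen f hf0 α hα0 hrt hα hmem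
  set p := f.map (Int.castRingHom ℂ) with hp
  have hinjZ : Function.Injective (Int.castRingHom ℂ) := RingHom.injective_int _
  have hp0 : p ≠ 0 := (Polynomial.map_ne_zero_iff hinjZ).mpr hf0
  have hunit : IsIntegral ℤ α → IsIntegral ℤ α⁻¹ →
      c / 2 * ((minpoly ℚ (α + α⁻¹)).natDegree : ℝ) ^ ((1 : ℝ) / ((e + 1 : ℕ) + 1)) ≤
        Real.log p.mahlerMeasure := by
    intro hi1 hi2
    have hr0 : f.reverse ≠ 0 := by rwa [Ne, reverse_eq_zero]
    have hrα : aeval α⁻¹ f.reverse = 0 := (rev_iff hα0 f).2 hα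
    have h1 := unit_case hc L hcen (f := f * f.reverse) (mul_ne_zero hf0 hr0) hα0
      (by rw [map_mul, hα, zero_mul]) (by rw [map_mul, hrα, mul_zero]) hi1 hi2 hrt hmem
    have h2 : (f.reverse).map (Int.castRingHom ℂ) = p.reverse := by
      rw [hp]
      unfold reverse
      rw [natDegree_map_eq_of_injective hinjZ, reflect_map]
    have hpos : p.mahlerMeasure ≠ 0 := by
      rw [Ne, mahlerMeasure_eq_zero_iff]
      exact hp0
    rw [Polynomial.map_mul, ← hp, h2, mahlerMeasure_mul, mahler_rev, Real.log_mul hpos hpos] at h1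
    linarith
  refine ⟨?_, hunit⟩
  by_cases hl : 2 ≤ |f.leadingCoeff|
  · left
    refine le_trans ?_ (leadingCoeff_le_mahlerMeasure p)
    rw [hp, leadingCoeff_map_of_injective hinjZ, eq_intCast, Complex.norm_intCast]
    exact_mod_cast hl
  by_cases htr : 2 ≤ |f.reverse.leadingCoeff|
  · left
    rw [← mahler_rev p]
    refine le_trans ?_ (leadingCoeff_le_mahlerMeasure p.reverse)
    have h2 : (f.reverse).map (Int.castRingHom ℂ) = p.reverse := by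
      rw [hp]
      unfold reverse
      rw [natDegree_map_eq_of_injective hinjZ, reflect_map]
    rw [← h2, leadingCoeff_map_of_injective hinjZ, eq_intCast, Complex.norm_intCast]
    exact_mod_cast htr
  right
  have hgen : ∀ g : ℤ[X], g ≠ 0 → ¬ 2 ≤ |g.leadingCoeff| → ∀ z : ℂ, aeval z g = 0 →
      IsIntegral ℤ z := by
    intro g hg0 hg z hz
    have h1 : g.leadingCoeff = 1 ∨ g.leadingCoeff = -1 := by
      have h2 : |g.leadingCoeff| = 1 := by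
        have := Int.one_le_abs (leadingCoeff_ne_zero.mpr hg0)
        omega
      exact (abs_eq (by norm_num)).mp h2
    rcases h1 with h1 | h1
    · exact ⟨g, h1, hz⟩
    · refine ⟨-g, ?_, ?_⟩
      · rw [Monic, leadingCoeff_neg, h1]
        norm_num
      · rw [eval₂_neg, neg_eq_zero]
        exact hz
  have hr0 : f.reverse ≠ 0 := by rwa [Ne, reverse_eq_zero]
  exact hunit (hgen f hf0 hl α hα) (hgen f.reverse hr0 htr α⁻¹ ((rev_iff hα0 f).2 hα))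

end Pool.Agent.Q98.SG
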