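import Mathlib
import Pool.Agent.Q98.SG.M

/-!
# The two theorems on Galois trace fields
-/

set_option autoImplicit false

open NumberField

namespace Pool.Agent.Q98.SG

open Pool.Agent.W738.SAL

lemma U_add_two_le {β : ℝ} (hβ : 1 < β) (m : ℕ) : U β m + 2 ≤ 4 * β ^ m := by
  unfold U
  have h1 : 1 ≤ β ^ m := one_le_pow₀ hβ.le
  have h2 : (β⁻¹) ^ m ≤ 1 := by
    rw [inv_pow]
    exact inv_le_one_of_one_le₀ h1
  linarith

lemma U_pos {β : ℝ} (hβ : 1 < β) (m : ℕ) : 0 < U β m + 2 := by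
  have := U_two_le (show (0:ℝ) < β by linarith) m
  linarith

lemma cost_le {β : ℝ} (hβ : 1 < β) {a b m : ℕ} (ha : a ≤ m) (hb : b ≤ m) (n : ℕ) :
    (U β a + 2) * (U β b + 2) / 16 * 4 ^ n ≤ β ^ (2 * m) * 4 ^ n := by
  have h1 := U_add_two_le hβ a
  have h2 := U_add_two_le hβ b
  have h3 : β ^ a ≤ β ^ m := pow_le_pow_right₀ hβ.le ha
  have h4 : β ^ b ≤ β ^ m := pow_le_pow_right₀ hβ.le hb
  have h5 : (U β a + 2) * (U β b + 2) ≤ (4 * β ^ m) * (4 * β ^ m) :=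
    mul_le_mul (by linarith) (by linarith) (U_pos hβ b).le (by positivity)
  have h6 : (0:ℝ) < 4 ^ n := by positivity
  have h7 : β ^ (2 * m) = β ^ m * β ^ m := by rw [two_mul, pow_add]
  rw [h7]
  nlinarith

/-- trace fields which are Galois over `ℚ` with small conjugacy classes -/
theorem thmA {β : ℝ} (hP : IsPerron β) (hrec : IsReciprocal β) [hG : IsGalois ℚ (TF β)] {c : ℕ}
    (hc : ∀ σ : TF β ≃ₐ[ℚ] TF β, (conjugatesOf σ).ncard ≤ c)
    (hn : (4 * β ^ 4) ^ c ≤ (Module.finrank ℚ (TF β) : ℝ)) : (ParryPowers β).Finite := by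
  classical
  have hfd := tf_finite hP hrec
  have : NumberField (TF β) := ⟨⟩
  by_contra hinf
  have h1β := hP.1
  set n := Module.finrank ℚ (TF β) with hnn
  have hn0 : n ≠ 0 := (Module.finrank_pos (R := ℚ) (M := TF β)).ne'
  obtain ⟨q, hq, hq1, hq2⟩ := Nat.exists_prime_lt_and_le_two_mul n hn0
  obtain ⟨j, S, hS, hj, hdiv⟩ := large_prime (L := TF β) hq hc hq1
  have hj1 : j ≤ 1 := by rcases hj with h | ⟨h, -⟩ <;> omega
  have hcrit := prodCrit hP hrec hinf hq (i := 1) (j := j) S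
    (by
      rcases hj with h | ⟨h, h'⟩
      · left; omega
      · right; exact ⟨h, h'⟩) (hdiv (TT hP hrec))
  have hqj : q ^ j ≤ 2 * n := by
    calc q ^ j ≤ q ^ 1 := Nat.pow_le_pow_right hq.pos hj1
      _ ≤ 2 * n := by rw [pow_one]; exact hq2
  have hq1' : q ^ 1 ≤ 2 * n := by rw [pow_one]; exact hq2
  have h2 := cost_le h1β hq1' hqj n
  have h3 : (1:ℝ) ≤ β ^ (2 * (2 * n)) * 4 ^ n :=
    one_le_mul_of_one_le_of_one_le (one_le_pow₀ h1β.le) (one_le_pow₀ (by norm_num))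
  have h4 : 0 ≤ (U β (q ^ 1) + 2) * (U β (q ^ j) + 2) / 16 * 4 ^ n := by
    have := U_pos h1β (q ^ 1)
    have := U_pos h1β (q ^ j)
    positivity
  have h5 : (q : ℝ) ^ n ≤ (β ^ (2 * (2 * n)) * 4 ^ n) ^ c :=
    calc (q : ℝ) ^ n ≤ _ := hcrit
      _ ≤ (β ^ (2 * (2 * n)) * 4 ^ n) ^ S.card := pow_le_pow_left₀ h4 h2 _
      _ ≤ _ := pow_le_pow_right₀ h3 hS
  have h6 : (β ^ (2 * (2 * n)) * 4 ^ n) ^ c = ((4 * β ^ 4) ^ c) ^ n := by
    have h60 : β ^ (2 * (2 * n)) = (β ^ 4) ^ n := by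
      rw [← pow_mul]
      congr 1
      ring
    rw [h60, ← mul_pow, mul_comm (β ^ 4) 4, ← pow_mul, ← pow_mul, mul_comm n c]
  rw [h6] at h5
  have h7 : ((4 * β ^ 4) ^ c) ^ n ≤ (n : ℝ) ^ n := pow_le_pow_left₀ (by positivity) hn n
  have h8 : (n : ℝ) < q := by exact_mod_cast hq1
  have h9 : (n : ℝ) ^ n < (q : ℝ) ^ n := pow_lt_pow_left₀ h8 (Nat.cast_nonneg _) hn0
  linarith

/-- trace fields which are Galois over `ℚ` with a group of finite exponent modulo its centre -/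
theorem thmB {β : ℝ} (hP : IsPerron β) (hrec : IsReciprocal β) [hG : IsGalois ℚ (TF β)]
    {d p A : ℕ} (hd : 0 < d) (hp : p.Prime) (hdp : d < p) (h16 : 16 < p)
    (hcen : ∀ σ τ : TF β ≃ₐ[ℚ] TF β, σ ^ d * τ = τ * σ ^ d)
    (hA : β ^ (2 * p ^ (d + 1)) ≤ 4 ^ A)
    (hn : (4 * β ^ 4) ^ (A * d) ≤ (Module.finrank ℚ (TF β) : ℝ)) : (ParryPowers β).Finite := by
  classical
  have hfd := tf_finite hP hrec
  have : NumberField (TF β) := ⟨⟩
  by_contra hinf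
  have h1β := hP.1
  set n := Module.finrank ℚ (TF β) with hnn
  obtain ⟨e, he0, hram, hcl⟩ := small_prime (L := TF β) hp hd hdp hcen
  obtain ⟨σ, hσ⟩ := frob_central (L := TF β) hp hcen
  obtain ⟨k, hk1, hk2⟩ : ∃ k : ℕ, e ≤ p ^ k ∧ p ^ k ≤ p * e := by
    refine ⟨Nat.clog p e, Nat.le_pow_clog hp.one_lt _, ?_⟩
    rcases Nat.lt_or_ge 1 e with h | h
    · have h1 := Nat.pow_pred_clog_lt_self hp.one_lt h
      have h2 : 0 < Nat.clog p e := Nat.clog_pos hp.one_lt h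
      have h3 : Nat.clog p e = (Nat.clog p e).pred + 1 := by
        rw [Nat.pred_eq_sub_one]; omega
      rw [h3, pow_succ, mul_comm]
      exact Nat.mul_le_mul_left _ h1.le
    · have h1 : e = 1 := by omega
      rw [h1, Nat.clog_one_right, pow_zero, mul_one]
      exact hp.pos
  have hcrit := prodCrit hP hrec hinf hp (i := d + k) (j := k) {σ} (Or.inl (by omega))
    (by
      rw [Finset.prod_singleton, Nat.add_sub_cancel]
      exact hram _ hk1 (Ideal.pow_mem_pow (hσ _) _))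
  rw [Finset.card_singleton, pow_one] at hcrit
  have hle1 : p ^ (d + k) ≤ p ^ (d + 1) * e := by
    calc p ^ (d + k) = p ^ d * p ^ k := pow_add _ _ _
      _ ≤ p ^ d * (p * e) := Nat.mul_le_mul_left _ hk2
      _ = p ^ (d + 1) * e := by rw [pow_succ]; ring
  have hle2 : p ^ k ≤ p ^ (d + 1) * e :=
    (Nat.pow_le_pow_right hp.pos (by omega)).trans hle1
  have h2 := hcrit.trans (cost_le h1β hle1 hle2 n)
  have h3 : β ^ (2 * (p ^ (d + 1) * e)) = (β ^ (2 * p ^ (d + 1))) ^ e := by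
    rw [← pow_mul, mul_assoc]
  have h4 : (β ^ (2 * p ^ (d + 1))) ^ e ≤ (4 ^ A) ^ e :=
    pow_le_pow_left₀ (by positivity) hA e
  have h5 : ((16:ℝ)) ^ n ≤ (p : ℝ) ^ n :=
    pow_le_pow_left₀ (by norm_num) (by exact_mod_cast h16.le) n
  have h6 : (16:ℝ) ^ n = 4 ^ n * 4 ^ n := by rw [← mul_pow]; norm_num
  have h7 : (4:ℝ) ^ n * 4 ^ n ≤ 4 ^ (A * e) * 4 ^ n := by
    rw [← h6]
    refine h5.trans (h2.trans ?_)
    rw [h3]
    rw [pow_mul (4:ℝ) A e]
    exact mul_le_mul_of_nonneg_right h4 (by positivity)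
  have h8 : (4:ℝ) ^ n ≤ 4 ^ (A * e) := le_of_mul_le_mul_right h7 (by positivity)
  have h9 : n ≤ A * e := (pow_le_pow_iff_right₀ (by norm_num : (1:ℝ) < 4)).1 h8
  refine hinf (thmA hP hrec (c := A * d) ?_ hn)
  intro τ
  have h10 := hcl τ
  have h11 : (conjugatesOf τ).ncard * e ≤ (A * d) * e := by
    calc (conjugatesOf τ).ncard * e ≤ d * n := h10
      _ ≤ d * (A * e) := Nat.mul_le_mul_left _ h9
      _ = (A * d) * e := by ring
  exact Nat.le_of_mul_le_mul_right h11 he0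

/-- for all bounds and exponents there are only finitely many possible degrees -/
theorem thmC (B : ℝ) (d : ℕ) (hd : 0 < d) : ∃ N : ℕ, ∀ β : ℝ, IsPerron β → IsReciprocal β →
    IsGalois ℚ (TF β) → β ≤ B → (∀ σ τ : TF β ≃ₐ[ℚ] TF β, σ ^ d * τ = τ * σ ^ d) →
    N ≤ Module.finrank ℚ (TF β) → (ParryPowers β).Finite := by
  obtain ⟨p, hp1, hp⟩ := Nat.exists_infinite_primes (max d 16 + 1)
  have hdp : d < p := by
    have := le_max_left d 16
    omega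
  have h16 : 16 < p := by
    have := le_max_right d 16
    omega
  obtain ⟨A, hA⟩ := pow_unbounded_of_one_lt (B ^ (2 * p ^ (d + 1))) (by norm_num : (1:ℝ) < 4)
  obtain ⟨N, hN⟩ := exists_nat_ge ((4 * B ^ 4) ^ (A * d))
  refine ⟨N, fun β hP hrec hG hβ hcen hn => ?_⟩
  have h1β := hP.1
  have hβ0 : (0:ℝ) ≤ β := by linarith
  refine thmB hP hrec (d := d) (p := p) (A := A) hd hp hdp h16 hcen ?_ ?_
  · exact (pow_le_pow_left₀ hβ0 hβ _).trans hA.le
  · calc (4 * β ^ 4) ^ (A * d) ≤ (4 * B ^ 4) ^ (A * d) := by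
          apply pow_le_pow_left₀ (by positivity)
          have := pow_le_pow_left₀ hβ0 hβ 4
          linarith
      _ ≤ (N : ℝ) := hN
      _ ≤ _ := by exact_mod_cast hn

/-- below Lehmer's number -/
theorem thmD {τ : ℝ} (hτ1 : 1 < τ)
    (hτ : τ ^ 10 + τ ^ 9 - τ ^ 7 - τ ^ 6 - τ ^ 5 - τ ^ 4 - τ ^ 3 + τ + 1 = 0)
    {β : ℝ} (hP : IsPerron β) (hrec : IsReciprocal β) [hG : IsGalois ℚ (TF β)] (hβ : β < τ) :
    (∀ c : ℕ, (∀ σ : TF β ≃ₐ[ℚ] TF β, (conjugatesOf σ).ncard ≤ c) →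
      8 ^ c ≤ Module.finrank ℚ (TF β) → (ParryPowers β).Finite) ∧
    (∀ d p : ℕ, 0 < d → p.Prime → d < p → 16 < p →
      (∀ σ τ : TF β ≃ₐ[ℚ] TF β, σ ^ d * τ = τ * σ ^ d) →
      8 ^ (p ^ (d + 1) * d) ≤ Module.finrank ℚ (TF β) → (ParryPowers β).Finite) := by
  have h1 : τ < 1.18 := by
    by_contra hcon
    push Not at hcon
    obtain ⟨y, rfl⟩ : ∃ y : ℝ, τ = 1.18 + y := ⟨τ - 1.18, by ring⟩
    have hy : 0 ≤ y := by linarith
    ring_nf at hτ
    have : 0 < y * (1:ℝ) + 1 := by positivity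
    nlinarith [pow_nonneg hy 2, pow_nonneg hy 3, pow_nonneg hy 4, pow_nonneg hy 5,
      pow_nonneg hy 6, pow_nonneg hy 7, pow_nonneg hy 8, pow_nonneg hy 9, pow_nonneg hy 10]
  have h1β := hP.1
  have hβ0 : (0:ℝ) ≤ β := by linarith
  have h2 : β ^ 4 ≤ 1.18 ^ 4 := pow_le_pow_left₀ hβ0 (by linarith) 4
  have h3 : 4 * β ^ 4 ≤ 8 := by
    have : (1.18:ℝ) ^ 4 ≤ 2 := by norm_num
    linarith
  have h4 : ∀ m : ℕ, (4 * β ^ 4) ^ m ≤ (8:ℝ) ^ m := fun m => pow_le_pow_left₀ (by positivity) h3 m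
  constructor
  · intro c hc hn
    refine thmA hP hrec hc ((h4 c).trans ?_)
    exact_mod_cast hn
  · intro d p hd hp hdp h16 hcen hn
    refine thmB hP hrec (A := p ^ (d + 1)) hd hp hdp h16 hcen ?_ ((h4 _).trans ?_)
    · rw [pow_mul]
      apply pow_le_pow_left₀ (by positivity)
      nlinarith
    · exact_mod_cast hn

end Pool.Agent.Q98.SG
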